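import Mathlib.Analysis.SpecialFunctions.Trigonometric.Bounds
import Mathlib.Analysis.Real.Pi.Bounds

/-! Trigonometric inequalities for spirals and cycles on roots of unity. -/

open Real

namespace Pool.Agent.Work.MP_a6d20f_an.Hedge

lemma angle {P Q : ℝ} {K : ℕ} (hK : 2 ≤ K) (hP : 0 ≤ P)
    (h : |Q| * sin (2 * π / K) ≤ P * (1 - cos (2 * π / K))) (m : ℤ) :
    0 ≤ P * (1 - cos (m * (2 * π / K))) + Q * sin (m * (2 * π / K)) := by
  have hK' : (2 : ℝ) ≤ K := by exact_mod_cast hK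
  have hK0 : (0 : ℝ) < K := by linarith only [hK']
  set α := π / K with hα
  have a0 : 0 < α := by positivity
  have aK : α * K = π := by rw [hα]; field_simp
  have a1 : 2 * α ≤ π := by linarith only [aK, hK', a0, mul_nonneg_of_nonpos_of_nonpos (Mathlib.Tactic.Linarith.sub_nonpos_of_le hK') (le_of_lt (Mathlib.Tactic.Linarith.sub_neg_of_lt a0))]
  have e0 : 2 * π / K = 2 * α := by rw [hα]; ring
  have s0 : 0 < sin α := sin_pos_of_pos_of_lt_pi a0 (by linarith only [a0, a1])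
  rw [e0, sin_two_mul, cos_two_mul, cos_sq'] at h
  have h1 : |Q| * cos α ≤ P * sin α := le_of_mul_le_mul_left (by linarith only [h]) s0
  obtain ⟨r, q, r0, r1, rfl⟩ : ∃ r q : ℤ, 0 ≤ r ∧ r < K ∧ m = r + K * q :=
    ⟨m % K, m / K, Int.emod_nonneg _ (by omega), Int.emod_lt_of_pos _ (by omega),
      (Int.emod_add_mul_ediv _ _).symm⟩
  have e1 : ((r + K * q : ℤ) : ℝ) * (2 * π / K) = 2 * (r * α) + q * (2 * π) := by
    rw [e0, ← aK]; push_cast; ring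
  rw [e1, cos_add_int_mul_two_pi, sin_add_int_mul_two_pi, sin_two_mul, cos_two_mul, cos_sq']
  rcases r0.eq_or_lt with rfl | r2
  · norm_num
  have b1 : (1 : ℝ) ≤ r := by exact_mod_cast r2
  have b2 : (r : ℝ) + 1 ≤ K := by exact_mod_cast r1
  set φ := r * α with hφ
  have c1 : α ≤ φ := by linarith only [a0, b1, mul_nonneg_of_nonpos_of_nonpos (le_of_lt (Mathlib.Tactic.Linarith.sub_neg_of_lt a0)) (Mathlib.Tactic.Linarith.sub_nonpos_of_le b1)]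
  have c2 : α ≤ π - φ := by linarith only [aK, a0, b2, mul_nonneg_of_nonpos_of_nonpos (le_of_lt (Mathlib.Tactic.Linarith.sub_neg_of_lt a0)) (Mathlib.Tactic.Linarith.sub_nonpos_of_le b2)]
  have d1 : cos φ ≤ cos α := cos_le_cos_of_nonneg_of_le_pi a0.le (by linarith only [a0, c2]) c1
  have d2 : -cos φ ≤ cos α := by
    rw [← cos_pi_sub]
    exact cos_le_cos_of_nonneg_of_le_pi a0.le (by linarith only [a0, c1]) c2
  have s1 : 0 ≤ sin φ := sin_nonneg_of_nonneg_of_le_pi (by linarith only [a0, c1]) (by linarith only [a0, c2])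
  have d3 : sin α ≤ sin φ := by
    refine (pow_le_pow_iff_left₀ s0.le s1 two_ne_zero).1 ?_
    rw [sin_sq, sin_sq]
    linarith only [d1, d2, mul_nonneg_of_nonpos_of_nonpos (Mathlib.Tactic.Linarith.sub_nonpos_of_le d1) (Mathlib.Tactic.Linarith.sub_nonpos_of_le d2)]
  have d4 : -(Q * cos φ) ≤ |Q| * cos α := by
    refine (neg_le_abs _).trans ?_
    rw [abs_mul]
    exact mul_le_mul_of_nonneg_left (abs_le.2 ⟨by linarith only [d2], d1⟩) (abs_nonneg _)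
  have d5 := mul_le_mul_of_nonneg_left d3 hP
  have d6 := mul_nonneg s1 (by linarith only [h1, d4, d5] : 0 ≤ P * sin φ + Q * cos φ)
  rw [← cos_sq', cos_sq', sq]
  linarith only [d6]

lemma num_aux {θ u Δ R v : ℝ} (h0 : 0 < Δ) (hR : 99 / 100 ≤ R) (hR1 : R ≤ 1) (hRΔ : 1 - R ≤ Δ)
    (t0 : 0 < θ) (t1 : θ ≤ 1.5708) (t2 : 4 * Δ ≤ θ ^ 2) (u1 : u ≤ θ ^ 2 / 2)
    (u2 : θ ^ 2 / 2 * (1 - θ ^ 2 / 12) ≤ u) (t3 : θ ^ 2 / 2 ≤ 2 * Δ + 0.7163 * θ * Δ)
    (hv : v = R * u) :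
    3 / 2 * Δ ≤ v ∧ v ≤ 16 / 5 * Δ ∧ v ≤ 5 / 4 ∧
      2 * (v - 2 * Δ) ^ 2 ≤ 8 / 9 * (v * Δ * (2 * v - Δ)) := by
  have t4 : θ ^ 2 ≤ 2.4675 := by linarith only [t1, t0, mul_nonneg_of_nonpos_of_nonpos (le_of_lt (Mathlib.Tactic.Linarith.sub_neg_of_lt t0)) (Mathlib.Tactic.Linarith.sub_nonpos_of_le t1)]
  have t5 : 0 < θ ^ 2 := by positivity
  have u3 : 0.397 * θ ^ 2 ≤ u := by linarith only [h0, t2, u2, t4, mul_nonneg_of_nonpos_of_nonpos (Mathlib.Tactic.Linarith.sub_nonpos_of_le (sq_nonneg θ)) (Mathlib.Tactic.Linarith.sub_nonpos_of_le t4)]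
  have u0 : 0 ≤ u := by linarith only [h0, t2, u3]
  have v1 : v ≤ u := by linarith only [hv, hR1, u3, mul_nonneg_of_nonpos_of_nonpos (Mathlib.Tactic.Linarith.sub_nonpos_of_le (sq_nonneg θ)) (Mathlib.Tactic.Linarith.sub_nonpos_of_le hR1), mul_nonneg_of_nonpos_of_nonpos (Mathlib.Tactic.Linarith.sub_nonpos_of_le hR1) (Mathlib.Tactic.Linarith.sub_nonpos_of_le u3)]
  have v2 : 0.393 * θ ^ 2 ≤ v := by linarith only [hv, u3, hR, sq_nonneg θ, mul_nonneg_of_nonpos_of_nonpos (Mathlib.Tactic.Linarith.sub_nonpos_of_le (sq_nonneg θ)) (Mathlib.Tactic.Linarith.sub_nonpos_of_le hR), mul_nonneg_of_nonpos_of_nonpos (Mathlib.Tactic.Linarith.sub_nonpos_of_le hR) (Mathlib.Tactic.Linarith.sub_nonpos_of_le u3)]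
  have v3 : v - 2 * Δ ≤ 0.7163 * θ * Δ := by linarith only [u1, t3, v1]
  refine ⟨by linarith only [h0, t2, v2], by linarith only [h0, u1, t3, v1, t1, mul_nonneg_of_nonpos_of_nonpos (le_of_lt (Mathlib.Tactic.Linarith.sub_neg_of_lt h0)) (Mathlib.Tactic.Linarith.sub_nonpos_of_le t1)], by linarith only [h0, t2, u1, t4, v1], ?_⟩
  have p0 : 0 < θ ^ 2 * Δ ^ 2 := by positivity
  rcases le_total (2 * Δ) v with h | h
  · have k1 := pow_le_pow_left₀ (by linarith only [h]) v3 2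
    have k2 : 0.393 * θ ^ 2 * Δ * (3 * Δ) ≤ v * Δ * (2 * v - Δ) :=
      mul_le_mul (mul_le_mul_of_nonneg_right v2 h0.le) (by linarith only [h]) (by positivity)
        (mul_nonneg (by linarith only [h0, t2, v2]) h0.le)
    linarith only [p0, k1, k2]
  · have k0 : 2 * Δ * (1 - θ ^ 2 / 12) ≤ u := by linarith only [t2, u2, t4, mul_nonneg_of_nonpos_of_nonpos (Mathlib.Tactic.Linarith.sub_nonpos_of_le t2) (Mathlib.Tactic.Linarith.sub_nonpos_of_le t4)]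
    have k1 : R * (2 * Δ * (1 - θ ^ 2 / 12)) ≤ v := by
      rw [hv]; exact mul_le_mul_of_nonneg_left k0 (by linarith only [h0, hR, t2, t4])
    have k2 : 1 - θ ^ 2 / 3 ≤ R * (1 - θ ^ 2 / 12) := by linarith only [hRΔ, t2, hR1, mul_nonneg_of_nonpos_of_nonpos (Mathlib.Tactic.Linarith.sub_nonpos_of_le (sq_nonneg θ)) (Mathlib.Tactic.Linarith.sub_nonpos_of_le hR1)]
    have k3 : 2 * Δ - v ≤ 2 / 3 * θ ^ 2 * Δ := by linarith only [k1, h0, k2, mul_nonneg_of_nonpos_of_nonpos (le_of_lt (Mathlib.Tactic.Linarith.sub_neg_of_lt h0)) (Mathlib.Tactic.Linarith.sub_nonpos_of_le k2)]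
    have k4 : 2 * Δ - v ≤ 0.43 * Δ := by linarith only [h0, t2, v2]
    have k5 : (2 * Δ - v) * (2 * Δ - v) ≤ 2 / 3 * θ ^ 2 * Δ * (0.43 * Δ) :=
      mul_le_mul k3 k4 (by linarith only [h]) (by positivity)
    have k6 : 0.393 * θ ^ 2 * Δ * (2 * Δ) ≤ v * Δ * (2 * v - Δ) :=
      mul_le_mul (mul_le_mul_of_nonneg_right v2 h0.le) (by linarith only [h0, t2, v2]) (by positivity)
        (mul_nonneg (by linarith only [h0, t2, v2]) h0.le)
    linarith only [p0, k5, k6]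

lemma exists_K {Δ R : ℝ} (h0 : 0 < Δ) (h1 : Δ ≤ 1 / 2) (hR : 99 / 100 ≤ R) (hR1 : R ≤ 1)
    (hRΔ : 1 - R ≤ Δ) : ∃ K : ℕ, 4 ≤ K ∧ ∀ v, v = R * (1 - cos (2 * π / K)) →
      3 / 2 * Δ ≤ v ∧ v ≤ 16 / 5 * Δ ∧ v ≤ 5 / 4 ∧
        2 * (v - 2 * Δ) ^ 2 ≤ 8 / 9 * (v * Δ * (2 * v - Δ)) := by
  set s := √Δ with hs
  have s0 : 0 < s := sqrt_pos.2 h0
  have s2 : s ^ 2 = Δ := sq_sqrt h0.le
  have s3 : s ≤ 3 / 4 := by (refine le_of_not_gt fun h_nl => ?_; linarith only [h_nl, s2, h0, h1, s0, mul_pos_of_neg_of_neg (Mathlib.Tactic.Linarith.sub_neg_of_lt h0) (Mathlib.Tactic.Linarith.sub_neg_of_lt h0), mul_nonneg_of_nonpos_of_nonpos (le_of_lt (Mathlib.Tactic.Linarith.sub_neg_of_lt h0)) (Mathlib.Tactic.Linarith.sub_nonpos_of_le h1), mul_pos_of_neg_of_neg (Mathlib.Tactic.Linarith.sub_neg_of_lt h0) (Mathlib.Tactic.Linarith.sub_neg_of_lt h_nl), mul_nonneg_of_nonpos_of_nonpos (Mathlib.Tactic.Linarith.sub_nonpos_of_le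 h1) (le_of_lt (Mathlib.Tactic.Linarith.sub_neg_of_lt s0)), mul_pos_of_neg_of_neg (Mathlib.Tactic.Linarith.sub_neg_of_lt s0) (Mathlib.Tactic.Linarith.sub_neg_of_lt h_nl)])
  have p1 := pi_gt_d4
  have p2 := pi_lt_d4
  have k4 : 4 ≤ ⌊π / s⌋₊ := Nat.le_floor (by rw [le_div_iff₀ s0]; push_cast; linarith only [s3, p1, p2])
  have k1 : (⌊π / s⌋₊ : ℝ) * s ≤ π := by
    rw [← le_div_iff₀ s0]; exact Nat.floor_le (by positivity)
  have k2 : π < (⌊π / s⌋₊ + 1 : ℝ) * s := by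
    rw [← div_lt_iff₀ s0]; exact Nat.lt_floor_add_one _
  refine ⟨_, k4, fun v hv => ?_⟩
  have k5 : (4 : ℝ) ≤ ⌊π / s⌋₊ := by exact_mod_cast k4
  generalize (⌊π / s⌋₊ : ℝ) = k at k1 k2 k5 hv
  have k0 : 0 < k := by linarith only [p1, p2, k5]
  set θ := 2 * π / k with hθ
  have e : θ * k = 2 * π := by rw [hθ]; field_simp
  have t0 : 0 < θ := by positivity
  have t1 : θ ≤ 1.5708 := by (refine le_of_not_gt fun h_nl => ?_; linarith only [h_nl, s0, p2, k5, e, s3, p1, k2, mul_pos_of_neg_of_neg (Mathlib.Tactic.Linarith.sub_neg_of_lt s0) (Mathlib.Tactic.Linarith.sub_neg_of_lt p2), mul_nonneg_of_nonpos_of_nonpos (le_of_lt (Mathlib.Tactic.Linarith.sub_neg_of_lt s0)) (Mathlib.Tactic.Linarith.sub_nonpos_of_le k5), Mathlib.Tactic.Linarith.mul_zero_eq (Mathlib.Tactic.Linarith.sub_neg_of_lt s0) (sub_eq_zero_of_eq e), mul_nonneg_of_nonpos_of_nonpos (Mathlib.Tactic.Linarith.sub_nonpos_of_le s3)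 (le_of_lt (Mathlib.Tactic.Linarith.sub_neg_of_lt h_nl)), mul_pos_of_neg_of_neg (Mathlib.Tactic.Linarith.sub_neg_of_lt p1) (Mathlib.Tactic.Linarith.sub_neg_of_lt h_nl), mul_pos_of_neg_of_neg (Mathlib.Tactic.Linarith.sub_neg_of_lt p2) (Mathlib.Tactic.Linarith.sub_neg_of_lt h_nl), mul_pos_of_neg_of_neg (Mathlib.Tactic.Linarith.sub_neg_of_lt k2) (Mathlib.Tactic.Linarith.sub_neg_of_lt h_nl)])
  have t2 : 2 * s ≤ θ := le_of_mul_le_mul_right (by linarith only [k1, e]) k0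
  refine num_aux h0 hR hR1 hRΔ t0 t1 (by (refine le_of_not_gt fun h_nl => ?_; linarith only [h_nl, s2, t2, h0, h1, s0, k1, k5, p1, e, t0, mul_pos_of_neg_of_neg (Mathlib.Tactic.Linarith.sub_neg_of_lt h0) (Mathlib.Tactic.Linarith.sub_neg_of_lt h_nl), mul_nonneg_of_nonpos_of_nonpos (Mathlib.Tactic.Linarith.sub_nonpos_of_le h1) (le_of_lt (Mathlib.Tactic.Linarith.sub_neg_of_lt h_nl)), mul_nonneg_of_nonpos_of_nonpos (le_of_lt (Mathlib.Tactic.Linarith.sub_neg_of_lt s0)) (Mathlib.Tactic.Linarith.sub_nonpos_of_le k1), Mathlib.Tactic.Linarith.zero_mul_eq (sub_eq_zero_of_eq s2) (Mathlib.Tactic.Linarith.sub_nonpos_of_le k5), mul_nonneg_of_nonpos_of_nonpos (le_of_lt (Mathlib.Tactic.Linarith.sub_neg_of_lt p1)) (Mathlib.Tactic.Linarith.sub_nonpos_of_le t2), mul_nonneg_of_nonpos_of_nonpos (Mathlib.Tactic.Linarith.sub_nonpos_of_le k5) (le_of_lt (Mathlib.Tactic.Linarith.sub_neg_of_lt h_nl)), Mathlib.Tactic.Linarith.zero_mul_eq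 (sub_eq_zero_of_eq e) (Mathlib.Tactic.Linarith.sub_neg_of_lt t0)])) (by linarith only [one_sub_sq_div_two_le_cos (x := θ)])
    ?_ ?_ hv
  · have a := sin_ge_sub_cube (x := θ / 2) (by positivity)
    have b : 0 ≤ θ / 2 - (θ / 2) ^ 3 / 6 := by
      have := mul_nonneg t0.le (by (refine le_of_not_gt fun h_nl => ?_; linarith only [h_nl, k5, t1, p1, p2, e, t0, mul_pos_of_neg_of_neg (Mathlib.Tactic.Linarith.sub_neg_of_lt p1) (Mathlib.Tactic.Linarith.sub_neg_of_lt p1), mul_pos_of_neg_of_neg (Mathlib.Tactic.Linarith.sub_neg_of_lt p1) (Mathlib.Tactic.Linarith.sub_neg_of_lt p2), mul_nonneg_of_nonpos_of_nonpos (le_of_lt (Mathlib.Tactic.Linarith.sub_neg_of_lt p1)) (Mathlib.Tactic.Linarith.sub_nonpos_of_le t1), mul_pos_of_neg_of_neg (Mathlib.Tactic.Linarith.sub_neg_of_lt p1) (Mathlib.Tactic.Linarith.sub_neg_of_lt h_nl), mul_pos_of_neg_of_neg (Mathlib.Tactic.Linarith.sub_neg_of_lt p2) (Mathlib.Tactic.Linarith.sub_neg_of_lt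 p2), mul_pos_of_neg_of_neg (Mathlib.Tactic.Linarith.sub_neg_of_lt p2) (Mathlib.Tactic.Linarith.sub_neg_of_lt h_nl), mul_nonneg_of_nonpos_of_nonpos (Mathlib.Tactic.Linarith.sub_nonpos_of_le k5) (le_of_lt (Mathlib.Tactic.Linarith.sub_neg_of_lt h_nl)), Mathlib.Tactic.Linarith.zero_mul_eq (sub_eq_zero_of_eq e) (Mathlib.Tactic.Linarith.sub_neg_of_lt t0)]) : 0 ≤ 24 - θ ^ 2)
      linarith only [this]
    have c := pow_le_pow_left₀ b a 2
    rw [sin_sq_eq_half_sub, show 2 * (θ / 2) = θ by ring] at c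
    have d : 0 ≤ θ ^ 6 := by positivity
    linarith only [c, d]
  · have a : θ * k ≤ 2 * (k + 1) * s := by linarith only [k2, e]
    have b := pow_le_pow_left₀ (by positivity) a 2
    have c : (k + 1) ^ 2 ≤ k ^ 2 + 9 / 4 * k := by linarith only [k5]
    have d : 9 / 2 ≤ 0.7163 * (θ * k) := by rw [e]; linarith only [p1, p2]
    refine le_of_mul_le_mul_right ?_ (by positivity : 0 < k ^ 2)
    have f := mul_le_mul_of_nonneg_right d (by positivity : 0 ≤ k * Δ)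
    have g := mul_le_mul_of_nonneg_right c h0.le
    rw [mul_pow, mul_pow, mul_pow, s2] at b
    linarith only [b, f, g]

lemma core {R D m G u v : ℝ} (hv : v = R * u) (hR : R ≤ 1) (hu : 0 ≤ u) (hD : 0 ≤ D)
    (hD2 : D ≤ 2 * v) (hm : 0 ≤ m) (hm2 : m ≤ 2 * ((2 * R - D) * u))
    (h : 2 * (2 * v ^ 2 - D * v * (2 * v - D)) ≤ G * (2 * v - 2 * D - m)) :
    D * (2 - u) * (G + D * u) ≤ ((2 * R - D) * u - m) * (G - ((2 * R - D) * u - m)) := by
  have e : (2 * R - D) * u = 2 * v - D * u := by rw [hv]; ring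
  rw [e] at hm2 ⊢
  have k1 : v ≤ u := by linarith only [hv, hR, hu, mul_nonneg_of_nonpos_of_nonpos (Mathlib.Tactic.Linarith.sub_nonpos_of_le hR) (Mathlib.Tactic.Linarith.sub_nonpos_of_le hu)]
  have k2 := mul_le_mul_of_nonneg_right (mul_le_mul_of_nonneg_left k1 hD) (sub_nonneg.2 hD2)
  have k3 := mul_nonneg hm (sub_nonneg.2 hm2)
  linarith only [h, k2, k3]

/-- From the polynomial inequality to the angle condition. -/
lemma cond {θ D P₁ P₂ : ℝ} (hs : 0 ≤ sin θ) (hu : 0 < 1 - cos θ) (hD : 0 ≤ D) (hG : 0 ≤ P₁ + P₂)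
    (h : D * (2 - (1 - cos θ)) * (P₁ + P₂ + D * (1 - cos θ)) ≤ P₁ * P₂) :
    0 ≤ P₁ * P₂ - (D * sin θ) ^ 2 ∧
      |D * sin θ * (P₁ + P₂)| * sin θ ≤ (P₁ * P₂ - (D * sin θ) ^ 2) * (1 - cos θ) := by
  have e : sin θ ^ 2 = (1 - cos θ) * (2 - (1 - cos θ)) := by rw [sin_sq]; ring
  have k : |D * sin θ * (P₁ + P₂)| * sin θ ≤ (P₁ * P₂ - (D * sin θ) ^ 2) * (1 - cos θ) := by
    rw [abs_of_nonneg (by positivity), mul_pow,
      show D * sin θ * (P₁ + P₂) * sin θ = D * (P₁ + P₂) * sin θ ^ 2 by ring, e]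
    have := mul_le_mul_of_nonneg_right h hu.le
    linarith only [this]
  exact ⟨nonneg_of_mul_nonneg_left (le_trans (by positivity) k) hu, k⟩

end Pool.Agent.Work.MP_a6d20f_an.Hedge
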