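import Mathlib.Analysis.Calculus.Gradient.Basic
import Mathlib.Analysis.Convex.Strong
import Mathlib.Analysis.InnerProductSpace.PiL2
import Mathlib.Analysis.SpecialFunctions.Pow.Real
import Mathlib.Topology.Instances.EReal.Lemmas

/-! Worst-case asymptotic rate of the heavy-ball method on smooth strongly convex functions. -/

namespace Pool.Agent.Work.MP_a6d20f_an.Hedge

/-- `f : ℝ^d → ℝ` is differentiable, `μ`-strongly convex, with `L`-Lipschitz gradient. -/
def InF {d : ℕ} (μ L : ℝ) (f : EuclideanSpace ℝ (Fin d) → ℝ) : Prop :=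
  Differentiable ℝ f ∧ StrongConvexOn Set.univ μ f ∧
    ∀ x y, ‖gradient f x - gradient f y‖ ≤ L * ‖x - y‖

/-- `x` is a heavy-ball trajectory of `f` with step size `γ` and momentum `β`. -/
def IsHB {d : ℕ} (γ β : ℝ) (f : EuclideanSpace ℝ (Fin d) → ℝ)
    (x : ℕ → EuclideanSpace ℝ (Fin d)) : Prop :=
  ∀ t, x (t + 2) = (1 + β) • x (t + 1) - β • x t - γ • gradient f (x (t + 1))

/-- The asymptotic rate `limsup ‖x t - xs‖ ^ (1 / t)`, in the extended reals. -/
noncomputable def rate {d : ℕ} (x : ℕ → EuclideanSpace ℝ (Fin d))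
    (xs : EuclideanSpace ℝ (Fin d)) : EReal :=
  Filter.limsup (fun t : ℕ => ((‖x t - xs‖ ^ ((1 : ℝ) / (t : ℝ)) : ℝ) : EReal)) Filter.atTop

/-- Worst-case rate of the tuning `(γ, β)` over the class, all minimisers and trajectories. -/
noncomputable def worst (d : ℕ) (μ L γ β : ℝ) : EReal :=
  ⨆ (f : EuclideanSpace ℝ (Fin d) → ℝ) (_ : InF μ L f)
    (xs : EuclideanSpace ℝ (Fin d)) (_ : ∀ y, f xs ≤ f y)
    (x : ℕ → EuclideanSpace ℝ (Fin d)) (_ : IsHB γ β f x), rate x xs

/-- The best worst-case rate over all tunings `γ > 0`, `β` real. -/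
noncomputable def best (d : ℕ) (μ L : ℝ) : EReal :=
  ⨅ (γ : ℝ) (_ : 0 < γ) (β : ℝ), worst d μ L γ β

end Pool.Agent.Work.MP_a6d20f_an.Hedge
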