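import Pool.Agent.Work.MP_a6d20f_an.Hedge.TwoSided

/-! Smooth convex interpolation by a Moreau envelope. -/

open Filter Topology
open scoped RealInnerProductSpace

namespace Pool.Agent.Work.MP_a6d20f_an.Hedge

variable {V : Type*} [NormedAddCommGroup V] [InnerProductSpace ℝ V] [ProperSpace V]

lemma exists_prox {φ : V → ℝ} (hc : Continuous φ) (h0 : ∀ w, 0 ≤ φ w)
    (hconv : ∀ p w (s : ℝ), 0 ≤ s → s ≤ 1 → φ (p + s • (w - p)) ≤ φ p + s * (φ w - φ p)) (x : V) :
    ∃ p, ∀ w, φ p + ⟪x - p, w - p⟫ ≤ φ w := by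
  obtain ⟨p, -, hp⟩ := (isCompact_closedBall x (2 * φ x + 1)).exists_isMinOn
    (f := fun w => φ w + ‖x - w‖ ^ 2 / 2)
    ⟨x, Metric.mem_closedBall_self (by linarith [h0 x])⟩ (by fun_prop)
  have hmin : ∀ w, φ p + ‖x - p‖ ^ 2 / 2 ≤ φ w + ‖x - w‖ ^ 2 / 2 := fun w => by
    by_cases hw : w ∈ Metric.closedBall x (2 * φ x + 1)
    · exact hp hw
    · have k1 : φ p + ‖x - p‖ ^ 2 / 2 ≤ φ x + ‖x - x‖ ^ 2 / 2 :=
        hp (Metric.mem_closedBall_self (by linarith [h0 x]))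
      rw [Metric.mem_closedBall', dist_eq_norm, not_le] at hw
      rw [sub_self, norm_zero] at k1
      nlinarith [h0 w, h0 x]
  refine ⟨p, fun w => ?_⟩
  have key : ∀ s : ℝ, 0 < s → s ≤ 1 → φ p + ⟪x - p, w - p⟫ ≤ φ w + s * (‖w - p‖ ^ 2 / 2) := by
    intro s h1 h2
    have a := hmin (p + s • (w - p))
    have b := hconv p w s h1.le h2
    have e : x - (p + s • (w - p)) = (x - p) - s • (w - p) := by abel
    rw [e, norm_sub_sq_real (x - p), real_inner_smul_right, norm_smul, mul_pow, Real.norm_eq_abs,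
      sq_abs] at a
    refine le_of_mul_le_mul_left ?_ h1
    nlinarith
  have h3 : Tendsto (fun s : ℝ => φ w + s * (‖w - p‖ ^ 2 / 2)) (𝓝[>] 0)
      (𝓝 (φ w + 0 * (‖w - p‖ ^ 2 / 2))) :=
    Tendsto.mono_left (Continuous.tendsto (by fun_prop) 0) nhdsWithin_le_nhds
  have h4 := ge_of_tendsto h3 (by
    filter_upwards [Ioo_mem_nhdsGT (zero_lt_one' ℝ)] with s hs using key s hs.1 hs.2.le)
  linarith

/-- Data `(u i, w i, q i)` with `q j ≥ q i + ⟪u i, w j - w i⟫` come from a convex function with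
`1`-Lipschitz gradient, whose gradient at `w i + u i` is `u i`. -/
lemma interp {ι : Type*} (u w : ι → V) (q : ι → ℝ) (B : ℝ) (hB : ∀ i, ‖u i‖ ≤ B) (i₀ : ι)
    (hu : u i₀ = 0) (hq : q i₀ = 0) (h : ∀ i j, q i + ⟪u i, w j - w i⟫ ≤ q j) :
    ∃ (H : V → ℝ) (U : V → V), TwoSided 0 1 H U ∧ ∀ i, U (w i + u i) = u i := by
  have : Nonempty ι := ⟨i₀⟩
  have hB0 : 0 ≤ B := (norm_nonneg _).trans (hB i₀)
  obtain ⟨a, ha⟩ : ∃ a : ι → V → ℝ, ∀ i z, a i z = q i + ⟪u i, z - w i⟫ := ⟨_, fun _ _ => rfl⟩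
  have hl : ∀ i z z', a i z = a i z' + ⟪u i, z - z'⟫ := fun i z z' => by
    simp only [ha, inner_sub_right]; ring
  have hl' : ∀ i z z', a i z ≤ a i z' + B * ‖z - z'‖ := fun i z z' => by
    rw [hl i z z']
    exact add_le_add_right ((real_inner_le_norm _ _).trans
      (mul_le_mul_of_nonneg_right (hB i) (norm_nonneg _))) _
  have hbd : ∀ z, BddAbove (Set.range fun i => a i z) := fun z =>
    ⟨q i₀ + B * ‖z - w i₀‖, by
      rintro _ ⟨i, rfl⟩
      exact (hl' i z (w i₀)).trans (add_le_add_left (by rw [ha]; exact h i i₀) _)⟩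
  obtain ⟨φ, hφ⟩ : ∃ φ : V → ℝ, ∀ z, φ z = ⨆ i, a i z := ⟨_, fun _ => rfl⟩
  have le1 : ∀ i z, a i z ≤ φ z := fun i z => by rw [hφ]; exact le_ciSup (hbd z) i
  have le2 : ∀ z c, (∀ i, a i z ≤ c) → φ z ≤ c := fun z c hc => by rw [hφ]; exact ciSup_le hc
  have hlip : LipschitzWith ⟨B, hB0⟩ φ := LipschitzWith.of_le_add_mul _ fun z z' =>
    le2 _ _ fun i => (hl' i z z').trans (by rw [dist_eq_norm]; exact add_le_add_left (le1 i z') _)
  have h0 : ∀ z, 0 ≤ φ z := fun z => by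
    have := le1 i₀ z
    rwa [ha, hu, hq, inner_zero_left, add_zero] at this
  choose p hp using exists_prox hlip.continuous h0 (fun p z s h1 h2 => le2 _ _ fun i => by
    have k1 := mul_le_mul_of_nonneg_left (le1 i z) h1
    have k2 := mul_le_mul_of_nonneg_left (le1 i p) (sub_nonneg.2 h2)
    rw [hl i _ p, add_sub_cancel_left, real_inner_smul_right]
    rw [hl i z p] at k1
    linarith)
  refine ⟨fun x => φ (p x) + ‖x - p x‖ ^ 2 / 2, fun x => x - p x, fun x y => ⟨?_, ?_⟩, fun i => ?_⟩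
  · have k := hp x (p y)
    have e : p y - p x = (y - x) - ((y - p y) - (x - p x)) := by abel
    rw [e, inner_sub_right, inner_sub_right (x - p x) (y - p y), real_inner_self_eq_norm_sq] at k
    have k2 := sq_nonneg ‖(x - p x) - (y - p y)‖
    rw [norm_sub_sq_real] at k2
    linarith
  · have k := hp y (p x)
    have e : p x - p y = (y - p y) - (y - p x) := by abel
    rw [e, inner_sub_right, real_inner_self_eq_norm_sq] at k
    have k2 := sq_nonneg ‖(y - p y) - (y - p x)‖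
    rw [norm_sub_sq_real] at k2
    have e2 : ‖y - p x‖ ^ 2 = ‖x - p x‖ ^ 2 + 2 * ⟪x - p x, y - x⟫ + ‖y - x‖ ^ 2 := by
      rw [← norm_add_sq_real]; congr 2; abel
    linarith
  · have k1 := hp (w i + u i) (w i)
    have k2 := le1 i (p (w i + u i))
    have k3 : φ (w i) ≤ q i := le2 _ _ fun j => by rw [ha]; exact h j i
    rw [ha] at k2
    have e : w i + u i - p (w i + u i) = u i + (w i - p (w i + u i)) := by abel
    rw [e, inner_add_left, real_inner_self_eq_norm_sq, ← neg_sub (p _), inner_neg_right,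
      norm_neg] at k1
    have k4 : ‖p (w i + u i) - w i‖ = 0 := pow_eq_zero_iff two_ne_zero |>.1
      (le_antisymm (by linarith) (sq_nonneg _))
    show w i + u i - p (w i + u i) = u i
    rw [sub_eq_zero.1 (norm_eq_zero.1 k4), add_sub_cancel_left]

end Pool.Agent.Work.MP_a6d20f_an.Hedge
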