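import Pool.Agent.Work.MP_a6d20f_an.Hedge.Interp
import Pool.Agent.Work.MP_a6d20f_an.Hedge.Angle

/-! Slow trajectories: a planar spiral and a scalar cycle. -/

open Filter Topology Real
open scoped RealInnerProductSpace

namespace Pool.Agent.Work.MP_a6d20f_an.Hedge

lemma slow_spiral {μ L γ β ρ P₁ P₂ I : ℝ} (hL : μ < L) (hγ : 0 < γ) (hρ : 0 < ρ) (hρ1 : ρ ≤ 1)
    {K : ℕ} (hK : 2 ≤ K) (h1 : P₁ = 1 + β - (ρ + β / ρ) * cos (2 * π / K) - γ * μ)
    (h2 : P₁ + P₂ = γ * (L - μ)) (h3 : I = (ρ - β / ρ) * sin (2 * π / K))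
    (hP : 0 ≤ P₁ * P₂ - I ^ 2)
    (hc : |I * (P₁ + P₂)| * sin (2 * π / K) ≤ (P₁ * P₂ - I ^ 2) * (1 - cos (2 * π / K))) :
    SlowV ℂ μ L γ β ρ := by
  have han := angle hK hP hc
  set θ := 2 * π / K with hθ
  have hLμ : 0 < L - μ := sub_pos.2 hL
  set G := γ * (L - μ) with hG
  have hG0 : 0 < G := by positivity
  obtain ⟨x, hx⟩ : ∃ x : ℕ → ℂ, ∀ k, x k = ⟨ρ ^ k * cos (k * θ), ρ ^ k * sin (k * θ)⟩ :=
    ⟨_, fun _ => rfl⟩
  have nx : ∀ k, ‖x k‖ = ρ ^ k := fun k => by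
    refine (pow_left_inj₀ (norm_nonneg _) (by positivity) two_ne_zero).1 ?_
    rw [Complex.sq_norm, Complex.normSq_apply, hx]
    linear_combination (ρ ^ k) ^ 2 * cos_sq_add_sin_sq (k * θ)
  set U : ℂ := ⟨P₁ / G, -I / G⟩ with hU
  set W : ℂ := ⟨P₂ / G, I / G⟩ with hW
  have hUW : W + U = 1 := by
    apply Complex.ext
    · simp only [hU, hW, Complex.add_re, Complex.one_re]; field_simp; linarith
    · simp only [hU, hW, Complex.add_im, Complex.one_im]; ring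
  have hin : ∀ i j : ℕ, ⟪U * x i, W * x j⟫ = ρ ^ i * ρ ^ j / G ^ 2 *
      ((P₁ * P₂ - I ^ 2) * cos (((j : ℤ) - i : ℤ) * θ)
        - I * (P₁ + P₂) * sin (((j : ℤ) - i : ℤ) * θ)) := fun i j => by
    have e : (((j : ℤ) - i : ℤ) : ℝ) * θ = j * θ - i * θ := by push_cast; ring
    rw [Complex.inner, e, cos_sub, sin_sub, hx, hx]
    simp only [hU, hW, Complex.mul_re, Complex.mul_im, Complex.conj_re, Complex.conj_im]
    field_simp
    ring
  have hii : ∀ i : ℕ, ⟪U * x i, W * x i⟫ = ρ ^ i * ρ ^ i / G ^ 2 * (P₁ * P₂ - I ^ 2) :=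
    fun i => by rw [hin]; simp
  obtain ⟨H, Uf, t1, t2⟩ := interp (ι := Option ℕ) (fun o => o.elim 0 fun k => U * x k)
    (fun o => o.elim 0 fun k => W * x k)
    (fun o => o.elim 0 fun k => ρ ^ k * ρ ^ k / G ^ 2 * (P₁ * P₂ - I ^ 2) / 2) ‖U‖
    (by
      rintro (_ | k)
      · simp
      · simp only [Option.elim_some, norm_mul, nx]
        exact mul_le_of_le_one_right (norm_nonneg _) (pow_le_one₀ hρ.le hρ1))
    none rfl rfl (by
      rintro (_ | i) (_ | j)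
      · simp
      · simp only [Option.elim_none, Option.elim_some, inner_zero_left, add_zero]
        positivity
      · simp only [Option.elim_none, Option.elim_some, zero_sub, inner_neg_right, hii]
        have : 0 ≤ ρ ^ i * ρ ^ i / G ^ 2 * (P₁ * P₂ - I ^ 2) := by positivity
        linarith
      · simp only [Option.elim_some, inner_sub_right, hii, hin i j]
        have a := mul_nonneg (by positivity : 0 ≤ ρ ^ i * ρ ^ j / G ^ 2) (han ((j : ℤ) - i))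
        have b : 0 ≤ (ρ ^ i - ρ ^ j) ^ 2 / G ^ 2 * (P₁ * P₂ - I ^ 2) := by positivity
        have e : (ρ ^ i - ρ ^ j) ^ 2 / G ^ 2 = ρ ^ i * ρ ^ i / G ^ 2
            - 2 * (ρ ^ i * ρ ^ j / G ^ 2) + ρ ^ j * ρ ^ j / G ^ 2 := by ring
        rw [e] at b
        linarith)
  have u0 : Uf 0 = 0 := by simpa using t2 none
  have uk : ∀ k, Uf (x k) = U * x k := fun k => by
    have := t2 (some k)
    simp only [Option.elim_some] at this
    rwa [← add_mul, hUW, one_mul] at this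
  refine ⟨fun z => μ / 2 * ‖z‖ ^ 2 + (L - μ) * H z, fun z => μ • z + (L - μ) • Uf z, 0, x,
    fun a b => ?_, by simp [u0], fun t => ?_, ?_⟩
  · obtain ⟨k1, k2⟩ := t1 a b
    have e : ‖b‖ ^ 2 = ‖a‖ ^ 2 + 2 * ⟪a, b - a⟫ + ‖b - a‖ ^ 2 := by
      rw [← norm_add_sq_real, add_sub_cancel]
    have k3 := mul_le_mul_of_nonneg_left k1 hLμ.le
    have k4 := mul_le_mul_of_nonneg_left k2 hLμ.le
    simp only [inner_add_left, real_inner_smul_left, e]
    constructor <;> linarith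
  · have e1 : ((t + 2 : ℕ) : ℝ) * θ = ((t + 1 : ℕ) : ℝ) * θ + θ := by push_cast; ring
    have e2 : (t : ℝ) * θ = ((t + 1 : ℕ) : ℝ) * θ - θ := by push_cast; ring
    simp only [uk]
    rw [hx (t + 2), hx t, hx (t + 1), e1, e2, cos_add, sin_add, cos_sub, sin_sub]
    generalize ((t + 1 : ℕ) : ℝ) * θ = φ
    apply Complex.ext <;>
    · simp only [hU, Complex.sub_re, Complex.sub_im, Complex.add_re, Complex.add_im,
        Complex.smul_re, Complex.smul_im, Complex.mul_re, Complex.mul_im, smul_eq_mul, h1, h3, hG]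
      field_simp
      ring
  · simpa [nx] using le_limsup_root (fun t => ρ ^ t) 1 ρ one_pos hρ.le
      (Eventually.frequently (Eventually.of_forall fun t => by simp))

lemma slow_cyc {μ L γ β P₁ P₂ I : ℝ} (hμ : 0 < μ) (hL : μ < L) (hγ : 0 < γ)
    {K : ℕ} (hK : 2 ≤ K) (h1 : P₁ = (1 + β) * (1 - cos (2 * π / K)) - γ * μ)
    (h2 : P₁ + P₂ = γ * (L - μ)) (h3 : I = (1 - β) * sin (2 * π / K))
    (h0 : P₁ * (1 - cos (2 * π / K)) ≠ 0) (hP : 0 ≤ P₁ * P₂ - I ^ 2)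
    (hc : |I * (P₁ + P₂)| * sin (2 * π / K) ≤ (P₁ * P₂ - I ^ 2) * (1 - cos (2 * π / K))) :
    Slow μ L γ β 1 := by
  have han := angle hK hP hc
  have hK0 : 0 < K := by omega
  have hK' : (0 : ℝ) < K := by exact_mod_cast hK0
  set θ := 2 * π / K with hθ
  obtain ⟨X, hX⟩ : ∃ X : ℕ → ℝ, ∀ k, X k = P₁ * cos (k * θ) - I * sin (k * θ) := ⟨_, fun _ => rfl⟩
  obtain ⟨G, hG⟩ : ∃ G : ℕ → ℝ, ∀ k, G k = μ * X k + (P₁ ^ 2 + I ^ 2) * cos (k * θ) / γ :=
    ⟨_, fun _ => rfl⟩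
  obtain ⟨f, xs, f1, f2, f3, f4⟩ := interpolate hμ hL X G (by
    intro j k
    set σ := (j * θ + k * θ) / 2 with hσ
    set δ := (j * θ - k * θ) / 2 with hδ
    have ec : cos (j * θ) - cos (k * θ) = -2 * sin σ * sin δ := cos_sub_cos _ _
    have es : sin (j * θ) - sin (k * θ) = 2 * sin δ * cos σ := sin_sub_sin _ _
    have key := han ((j + k : ℕ) : ℤ)
    rw [show (((j + k : ℕ) : ℤ) : ℝ) * θ = 2 * σ by rw [hσ]; push_cast; ring, cos_two_mul,
      sin_two_mul, cos_sq'] at key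
    have e1 : (G j - μ * X j) - (G k - μ * X k) =
        (P₁ ^ 2 + I ^ 2) / γ * (cos (j * θ) - cos (k * θ)) := by
      rw [hG, hG]; ring
    have e2 : (L * X j - G j) - (L * X k - G k) =
        ((P₁ * P₂ - I ^ 2) * (cos (j * θ) - cos (k * θ))
          - I * (P₁ + P₂) * (sin (j * θ) - sin (k * θ))) / γ := by
      have : L = μ + (P₁ + P₂) / γ := by rw [h2]; field_simp; ring
      rw [hG, hG, hX, hX, this]; field_simp; ring
    rw [e1, e2, ec, es]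
    have := mul_nonneg (by positivity : 0 ≤ (P₁ ^ 2 + I ^ 2) / γ ^ 2 * (2 * sin δ ^ 2)) key
    refine this.trans_eq ?_
    field_simp
    ring)
  refine ⟨f, xs, X, f1, f2, f3, fun t => ?_, ?_⟩
  · have e1 : ((t + 2 : ℕ) : ℝ) * θ = ((t + 1 : ℕ) : ℝ) * θ + θ := by push_cast; ring
    have e2 : (t : ℝ) * θ = ((t + 1 : ℕ) : ℝ) * θ - θ := by push_cast; ring
    rw [f4, hG, hX (t + 2), hX t, hX (t + 1), e1, e2, cos_add, sin_add, cos_sub, sin_sub]
    generalize ((t + 1 : ℕ) : ℝ) * θ = φ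
    have e3 : γ * μ = (1 + β) * (1 - cos θ) - P₁ := by linarith
    have e4 : γ * (μ * (P₁ * cos φ - I * sin φ) + (P₁ ^ 2 + I ^ 2) * cos φ / γ) =
        γ * μ * (P₁ * cos φ - I * sin φ) + (P₁ ^ 2 + I ^ 2) * cos φ := by field_simp
    rw [e4, e3]
    linear_combination (I * cos φ + P₁ * sin φ) * h3
  · have hper : ∀ i n : ℕ, X (i + n * K) = X i := by
      intro i n
      have : ((i + n * K : ℕ) : ℝ) * θ = i * θ + n * (2 * π) := by
        rw [hθ]; push_cast; field_simp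
      rw [hX, hX, this, cos_add_nat_mul_two_pi, sin_add_nat_mul_two_pi]
    obtain ⟨i, hi⟩ : ∃ i, X i ≠ xs := by
      by_contra hcon
      push Not at hcon
      have a0 := hcon 0
      have a1 := hcon 1
      have a2 := hcon 2
      rw [hX] at a0 a1 a2
      simp only [Nat.cast_zero, zero_mul, cos_zero, sin_zero, mul_one, mul_zero, sub_zero,
        Nat.cast_one, one_mul, Nat.cast_ofNat, cos_two_mul, sin_two_mul] at a0 a1 a2
      refine h0 ?_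
      linear_combination (1 / 2 - cos θ) * a0 + cos θ * a1 - 1 / 2 * a2
    exact le_limsup_root (fun t => |X t - xs|) |X i - xs| 1
      (abs_pos.2 (sub_ne_zero.2 hi)) zero_le_one (by
        rw [frequently_atTop]
        intro N
        refine ⟨i + N * K, ?_, ?_⟩
        · have : N ≤ N * K := Nat.le_mul_of_pos_right _ hK0
          omega
        · simp only [hper, one_pow, mul_one, le_refl])

lemma quad_cases {μ L γ β ρ : ℝ} (hμ : 0 < μ) (hL : μ < L) (hρ0 : 0 < ρ) (hρ1 : ρ ≤ 1) :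
    Slow μ L γ β ρ ∨ (β < ρ ^ 2 ∧ (1 - ρ) * (ρ - β) < γ * μ * ρ ∧
      γ * L * ρ < (1 + ρ) * (ρ + β)) := by
  have hL0 : 0 < L := by linarith
  by_cases c1 : ρ ^ 2 ≤ |β|
  · exact .inl (slow_of_beta hμ.le hL.le hρ0.le hρ1 c1)
  by_cases c2 : ρ ^ 2 - (1 + β - γ * μ) * ρ + β ≤ 0
  · set a := 1 + β - γ * μ with ha
    have hD : (2 * ρ - a) ^ 2 ≤ a ^ 2 - 4 * β := by nlinarith
    have hD0 : 0 ≤ a ^ 2 - 4 * β := le_trans (sq_nonneg _) hD
    have h1 : 2 * ρ - a ≤ √(a ^ 2 - 4 * β) := le_sqrt_of_sq_le hD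
    have h2 := sq_sqrt hD0
    refine .inl ((slow_of_root μ le_rfl hL.le hμ.le ((a + √(a ^ 2 - 4 * β)) / 2) ?_).mono ?_)
    · rw [← ha]; nlinarith
    · exact le_trans (by linarith) (le_abs_self _)
  by_cases c3 : ρ ^ 2 + (1 + β - γ * L) * ρ + β ≤ 0
  · set a := 1 + β - γ * L with ha
    have hD : (2 * ρ + a) ^ 2 ≤ a ^ 2 - 4 * β := by nlinarith
    have hD0 : 0 ≤ a ^ 2 - 4 * β := le_trans (sq_nonneg _) hD
    have h1 : 2 * ρ + a ≤ √(a ^ 2 - 4 * β) := le_sqrt_of_sq_le hD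
    have h2 := sq_sqrt hD0
    refine .inl ((slow_of_root L hL.le le_rfl hL0.le ((a - √(a ^ 2 - 4 * β)) / 2) ?_).mono ?_)
    · rw [← ha]; nlinarith
    · exact le_trans (by linarith) (neg_le_abs _)
  push Not at c1 c2 c3
  exact .inr ⟨lt_of_le_of_lt (le_abs_self _) c1, by linarith, by linarith⟩

lemma lt_four {Γ β ρ : ℝ} (hρ0 : 0 < ρ) (hρ1 : ρ ≤ 1) (h1 : β < ρ ^ 2)
    (h2 : Γ * ρ < (1 + ρ) * (ρ + β)) : Γ < 4 := by
  refine lt_of_mul_lt_mul_right (a := ρ) (h2.trans_le ?_) hρ0.le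
  have a : (1 + ρ) * (ρ + β) ≤ (1 + ρ) * (ρ + ρ ^ 2) :=
    mul_le_mul_of_nonneg_left (by linarith) (by linarith)
  have b : (1 + ρ) ^ 2 ≤ 4 := by nlinarith
  have c := mul_le_mul_of_nonneg_right b hρ0.le
  linarith

lemma sin_K {K : ℕ} (hK : 4 ≤ K) : 0 < sin (2 * π / K) := by
  have hK' : (4 : ℝ) ≤ K := by exact_mod_cast hK
  refine sin_pos_of_pos_of_lt_pi (by positivity) ?_
  rw [div_lt_iff₀ (by linarith)]
  nlinarith [pi_pos]

lemma num1 {κ Γ D : ℝ} (hκ0 : 0 < κ) (hρ0 : 0 < 1 - 16 * κ) (g4 : Γ < 4)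
    (d1 : 32 * κ * (1 - 8 * κ) < D) (c2 : κ * (16 * (D - 16 * κ)) < κ * (Γ * (1 - 16 * κ))) :
    16 * κ ≤ D ∧ κ * Γ ≤ 4 * κ ∧ 8 * D ≤ Γ * (1 - 5 * κ) := by
  have d3 := lt_of_mul_lt_mul_left c2 hκ0.le
  have c := mul_nonneg hκ0.le hρ0.le
  refine ⟨by linarith, by linarith [mul_le_mul_of_nonneg_left g4.le hκ0.le], ?_⟩
  refine le_of_mul_le_mul_right (a := 1 - 16 * κ) ?_ hρ0
  have a := mul_le_mul_of_nonneg_right d3.le (by linarith : 0 ≤ 1 - 5 * κ)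
  have b := mul_le_mul_of_nonneg_right d1.le (by linarith : 0 ≤ 1 + 6 * κ)
  have c' := mul_nonneg hκ0.le c
  linarith

lemma num2 {D m Δ G u : ℝ} (hD : 0 < D) (hD1 : D ≤ 1 / 2) (m0 : 0 ≤ m) (m1 : m ≤ D / 4)
    (hΔ : Δ = D + m / 2) (e1 : 8 * Δ ≤ G) (v1 : 3 / 2 * Δ ≤ u)
    (v4 : 2 * (u - 2 * Δ) ^ 2 ≤ 8 / 9 * (u * Δ * (2 * u - Δ))) :
    0 < (2 * 1 - D) * u - m ∧
    D * (2 - u) * (G + D * u) ≤ ((2 * 1 - D) * u - m) * (G - ((2 * 1 - D) * u - m)) := by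
  have u0 : 0 < u := by linarith
  have k := mul_le_mul_of_nonneg_right hD1 u0.le
  refine ⟨by linarith, core (one_mul u).symm le_rfl u0.le hD.le (by linarith) m0 (by linarith) ?_⟩
  have a := mul_le_mul_of_nonneg_right e1 (by linarith : 0 ≤ 2 * (u - Δ))
  have b : 8 / 9 * Δ * (u * (2 * u - Δ)) ≤ D * (u * (2 * u - D)) :=
    mul_le_mul (by linarith) (mul_le_mul_of_nonneg_left (by linarith) u0.le)
      (mul_nonneg u0.le (by linarith)) (by linarith)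
  rw [show 2 * u - 2 * D - m = 2 * (u - Δ) by rw [hΔ]; ring]
  linarith

theorem lower1 {μ L γ β : ℝ} (hμ : 0 < μ) (hL : μ < L) (hγ : 0 < γ) :
    Slow μ L γ β (1 - 16 * (μ / L)) := by
  have hL0 : 0 < L := by linarith
  have hγμ : γ * μ = μ / L * (γ * L) := by field_simp
  have hκ0 : 0 < μ / L := by positivity
  generalize μ / L = κ at hγμ hκ0 ⊢
  by_cases hρ0 : 1 - 16 * κ ≤ 0
  · exact (slow_of_beta (ρ := 0) hμ.le hL.le le_rfl zero_le_one (by simp)).mono hρ0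
  push Not at hρ0
  rcases quad_cases (γ := γ) (β := β) hμ hL hρ0 (by linarith) with h | ⟨c1, c2, c3⟩
  · exact h
  have g4 := lt_four hρ0 (by linarith) c1 c3
  have m0 : 0 < κ * (γ * L) := by positivity
  obtain ⟨d2, m1, d4⟩ := num1 (D := 1 - β) hκ0 hρ0 g4 (by linarith) (by rw [hγμ] at c2; linarith)
  have e1 : 8 * (1 - β + κ * (γ * L) / 2) ≤ γ * (L - μ) := by linarith
  obtain ⟨K, hK, hv⟩ := exists_K (Δ := 1 - β + κ * (γ * L) / 2) (R := 1) (by linarith)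
    (by linarith) (by norm_num) le_rfl (by linarith)
  obtain ⟨v1, -, -, v4⟩ := hv _ (one_mul _).symm
  obtain ⟨p0, co⟩ := num2 (by linarith) (by linarith) m0.le (by linarith) rfl e1 v1 v4
  have u0 : 0 < 1 - cos (2 * π / K) := by linarith
  generalize hP : (2 * 1 - (1 - β)) * (1 - cos (2 * π / K)) - κ * (γ * L) = P₁ at p0 co
  obtain ⟨q1, q2⟩ := cond (θ := 2 * π / K) (D := 1 - β) (P₁ := P₁) (P₂ := γ * (L - μ) - P₁)
    (sin_K hK).le u0 (by linarith) (by linarith) (by rw [add_sub_cancel]; exact co)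
  refine (slow_cyc (P₁ := P₁) (P₂ := γ * (L - μ) - P₁) hμ hL hγ
    (by omega : 2 ≤ K) ?_ (by ring) rfl (mul_pos p0 u0).ne' q1 q2).mono (by linarith)
  rw [← hP, hγμ]; ring

lemma num3 {κ D m Δ G ρ u v : ℝ} (hκ0 : 0 < κ) (hk : κ ≤ 1 / 1000) (hρ : ρ = 1 - 8 * κ)
    (d0 : 0 < D) (hΔ : Δ = D + 8 * κ) (hΔ1 : Δ ≤ 1 / 2) (m0 : 0 ≤ m) (m2 : m ≤ 4 * κ)
    (e1 : (8 - 8 * κ) * Δ ≤ G) (hv : v = ρ * u) (u0 : 0 < u) (v1 : 3 / 2 * Δ ≤ v)
    (v2 : v ≤ 16 / 5 * Δ)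
    (v4 : 2 * (v - 2 * Δ) ^ 2 ≤ 8 / 9 * (v * Δ * (2 * v - Δ))) :
    D * (2 - u) * (G + D * u) ≤ ((2 * ρ - D) * u - m) * (G - ((2 * ρ - D) * u - m)) := by
  have Δ0 : 0 < Δ := by linarith
  have k := mul_le_mul_of_nonneg_right (by linarith : D ≤ ρ) u0.le
  have f : 0 ≤ κ * Δ := by positivity
  refine core hv (by linarith) u0.le d0.le (by linarith) m0 (by linarith) ?_
  have a := mul_le_mul e1 (by linarith : 2 * (v - Δ) + 12 * κ ≤ 2 * v - 2 * D - m)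
    (by linarith) (le_trans (mul_nonneg (by linarith) Δ0.le) e1)
  have b : 2 * (v - 2 * Δ) ^ 2 ≤ 3 * Δ ^ 2 := by
    have := mul_nonneg (by linarith : 0 ≤ 6 / 5 * Δ - (v - 2 * Δ))
      (by linarith : 0 ≤ 6 / 5 * Δ + (v - 2 * Δ))
    have := sq_nonneg Δ
    linarith
  have c : 2 * (v - 2 * Δ) ^ 2 ≤ Δ * (v * (2 * v - D)) := by
    have := mul_nonneg (mul_nonneg (by linarith : 0 ≤ v) Δ0.le) (by linarith : 0 ≤ 2 * v - Δ)
    have := mul_nonneg (mul_nonneg (by linarith : 0 ≤ v) Δ0.le) hκ0.le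
    rw [show D = Δ - 8 * κ by linarith]
    linarith
  have d : 2 * (v - 2 * Δ) ^ 2 ≤ D * (v * (2 * v - D)) + 24 * κ * Δ := by
    refine le_of_mul_le_mul_left (a := Δ) ?_ Δ0
    have b' := mul_le_mul_of_nonneg_left b (by linarith : 0 ≤ 8 * κ)
    have c' := mul_le_mul_of_nonneg_left c d0.le
    have : Δ * (2 * (v - 2 * Δ) ^ 2) = (D + 8 * κ) * (2 * (v - 2 * Δ) ^ 2) := by rw [← hΔ]
    linarith
  have e := mul_le_mul_of_nonneg_left (by linarith : v - Δ + 6 * κ ≤ 5 / 4) f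
  linarith

theorem lower2 {μ L γ β : ℝ} (hμ : 0 < μ) (hL : μ < L) (hγ : 0 < γ) (hk : μ / L ≤ 1 / 1000) :
    Slow μ L γ β (1 - 8 * (μ / L)) ∨ SlowV ℂ μ L γ β (1 - 8 * (μ / L)) := by
  have hL0 : 0 < L := by linarith
  have hγμ : γ * μ = μ / L * (γ * L) := by field_simp
  have hκ0 : 0 < μ / L := by positivity
  generalize μ / L = κ at hγμ hκ0 hk ⊢
  generalize hρ : 1 - 8 * κ = ρ
  have hρ0 : 0 < ρ := by linarith
  have hρ1 : ρ ≤ 1 := by linarith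
  rcases quad_cases (γ := γ) (β := β) hμ hL hρ0 hρ1 with h | ⟨c1, c2, c3⟩
  · exact .inl h
  right
  have g4 := lt_four hρ0 hρ1 c1 c3
  obtain ⟨B, rfl⟩ : ∃ B, β = B * ρ := ⟨β / ρ, by field_simp⟩
  have hB' : B * ρ / ρ = B := by field_simp
  have d0 : 0 < ρ - B := sub_pos.2 (lt_of_mul_lt_mul_right (a := ρ) (by linarith) hρ0.le)
  have d3 : 8 * (1 - B) < γ * L := by
    refine lt_of_mul_lt_mul_left (a := κ * ρ) ?_ (by positivity)
    rw [hγμ, show 1 - ρ = 8 * κ by linarith] at c2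
    linarith
  have m1 := mul_le_mul_of_nonneg_left g4.le hκ0.le
  have m3 := mul_le_mul_of_nonneg_left d3.le hκ0.le
  have m4 := mul_nonneg hκ0.le (by linarith : 0 ≤ 1 - B)
  have e1 : (8 - 8 * κ) * (1 - B) ≤ γ * (L - μ) := by
    have := mul_le_mul_of_nonneg_left d3.le (by linarith : 0 ≤ 1 - κ)
    linarith
  obtain ⟨K, hK, hv⟩ := exists_K (Δ := 1 - B) (R := ρ) (by linarith) (by linarith) (by linarith) hρ1
    (by linarith)
  obtain ⟨v1, v2, -, v4⟩ := hv _ rfl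
  have u0 : 0 < 1 - cos (2 * π / K) := pos_of_mul_pos_left (b := ρ) (by linarith) hρ0.le
  have co := num3 (m := κ * (γ * L) - 8 * κ * (1 - B)) hκ0 hk hρ.symm d0 (by linarith) (by linarith)
    (by linarith) (by linarith) e1 rfl u0 v1 v2 v4
  generalize hP : (2 * ρ - (ρ - B)) * (1 - cos (2 * π / K))
    - (κ * (γ * L) - 8 * κ * (1 - B)) = P₁ at co
  obtain ⟨q1, q2⟩ := cond (θ := 2 * π / K) (D := ρ - B) (P₁ := P₁) (P₂ := γ * (L - μ) - P₁)
    (sin_K hK).le u0 d0.le (by rw [add_sub_cancel]; exact mul_nonneg hγ.le (by linarith))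
    (by rw [add_sub_cancel]; exact co)
  refine slow_spiral (P₁ := P₁) (P₂ := γ * (L - μ) - P₁) hL hγ hρ0 hρ1
    (by omega : 2 ≤ K) ?_ (by ring) (by rw [hB']) q1 q2
  rw [hB', ← hP, hγμ, ← hρ]
  ring

end Pool.Agent.Work.MP_a6d20f_an.Hedge
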