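import Pool.Agent.Work.MP_a6d20f_an.Hedge.TwoSided

/-! A Lyapunov function for a tuned heavy-ball method: rate `1 - (8 - ε) μ / L`. -/

open Filter Topology
open scoped RealInnerProductSpace

namespace Pool.Agent.Work.MP_a6d20f_an.Hedge

variable {V : Type*} [NormedAddCommGroup V] [InnerProductSpace ℝ V]

/-- The quadratic part of the Lyapunov function. -/
noncomputable def EE (b c M r : ℝ) (a x : V) : ℝ :=
  (M - b / 2) * ‖a‖ ^ 2 + (b ^ 2 - 2 * b * c) * ⟪a, x⟫ + b * r / 2 * ‖x‖ ^ 2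

lemma EE_step {b c M r G : ℝ} (hb : 0 ≤ b) (hc : 4 * b * c = b ^ 2 + r + 2 * b * M - G)
    (he : 0 ≤ M * (b ^ 2 + r) - G * b - 2 * b * c ^ 2) (a x y : V) :
    EE b c M r a x - r * EE b c M r x y ≤
      G * ⟪a - b • x, x⟫ + M * ‖a - b • x‖ ^ 2 - r * ⟪a - b • x, x - b • y⟫ := by
  have h1 : 0 ≤ b / 2 * ‖a - (2 * c) • x + r • y‖ ^ 2 := by positivity
  have h2 : 0 ≤ (M * (b ^ 2 + r) - G * b - 2 * b * c ^ 2) * ‖x‖ ^ 2 := by positivity
  simp only [EE, ← real_inner_self_eq_norm_sq, inner_sub_left, inner_sub_right, inner_add_left,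
    inner_add_right, real_inner_smul_left, real_inner_smul_right, real_inner_comm a x,
    real_inner_comm a y, real_inner_comm x y] at h1 h2 ⊢
  have h3 : 4 * b * c * ⟪a, x⟫ = (b ^ 2 + r + 2 * b * M - G) * ⟪a, x⟫ := by rw [hc]
  nlinarith

lemma EE_nonneg {b c M r : ℝ} (hb : 0 ≤ b) (hr : 0 < r)
    (hE : b * (b - 2 * c) ^ 2 ≤ r * (2 * M - b)) (a x : V) : 0 ≤ EE b c M r a x := by
  have h1 : 0 ≤ b * ‖r • x + (b - 2 * c) • a‖ ^ 2 := by positivity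
  have h2 : 0 ≤ (r * (2 * M - b) - b * (b - 2 * c) ^ 2) * ‖a‖ ^ 2 :=
    mul_nonneg (by linarith) (by positivity)
  refine nonneg_of_mul_nonneg_right (a := 2 * r) ?_ (by linarith)
  simp only [EE, ← real_inner_self_eq_norm_sq, inner_add_left,
    inner_add_right, real_inner_smul_left, real_inner_smul_right, real_inner_comm a x] at h1 h2 ⊢
  nlinarith

lemma lyap {ρ b g A M Γ c : ℝ} (hb : 0 < b) (hbρ : b < ρ) (hg : 0 < g) (hA : 0 < A)
    (h1 : 2 * A * ρ * g + Γ = 1) (h2 : 2 * A * g * b + Γ = ρ) (hM : M = 1 - A * g ^ 2)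
    (hc : 4 * b * c = b ^ 2 + ρ ^ 2 + 2 * b * M - g * Γ)
    (he : 0 ≤ M * (b ^ 2 + ρ ^ 2) - g * Γ * b - 2 * b * c ^ 2)
    (hE : b * (b - 2 * c) ^ 2 ≤ ρ ^ 2 * (2 * M - b))
    (y u : ℕ → V) (q : ℕ → ℝ)
    (hy : ∀ t, y (t + 2) = (ρ + b) • y (t + 1) - (ρ * b) • y t - g • u (t + 1))
    (hq0 : ∀ t, 0 ≤ q t)
    (hq : ∀ t, q (t + 1) - ρ ^ 2 * q t ≤ ⟪u (t + 1), y (t + 1) - ρ ^ 2 • y t⟫ - ‖u (t + 1)‖ ^ 2
      + ρ ^ 2 * ⟪u (t + 1), u t⟫) :
    ∃ C, 0 < C ∧ ∀ t, ‖y (t + 1)‖ ≤ C * ρ ^ t := by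
  have hρ : 0 < ρ := hb.trans hbρ
  obtain ⟨Z, hZ0⟩ : ∃ Z : ℕ → V, ∀ t, Z t = y (t + 1) - b • y t := ⟨_, fun _ => rfl⟩
  obtain ⟨X, hX0⟩ : ∃ X : ℕ → V, ∀ t, X t = (-g⁻¹) • (y (t + 1) - ρ • y t) := ⟨_, fun _ => rfl⟩
  have hZ : ∀ t, Z (t + 1) = ρ • Z t - g • u (t + 1) := fun t => by
    rw [hZ0, hZ0, hy]; module
  have hX : ∀ t, u (t + 1) = X (t + 1) - b • X t := fun t => by
    rw [hX0, hX0, hy]
    match_scalars <;> field_simp <;> ring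
  have hd : ∀ t, y (t + 1) - ρ ^ 2 • y t = (2 * A * ρ * g) • Z t - (g * Γ) • X t := fun t => by
    rw [hZ0, hX0]
    match_scalars
    · field_simp; linarith
    · field_simp; linarith
  obtain ⟨Φ, hΦ⟩ : ∃ Φ : ℕ → ℝ, ∀ t, Φ t =
    A * ‖Z (t + 1)‖ ^ 2 + q (t + 1) + EE b c M (ρ ^ 2) (X (t + 1)) (X t) := ⟨_, fun _ => rfl⟩
  have hs : ∀ t, Φ (t + 1) ≤ ρ ^ 2 * Φ t := fun t => by
    have k1 := EE_step hb.le hc he (X (t + 1 + 1)) (X (t + 1)) (X t)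
    rw [← hX, ← hX] at k1
    have k2 := hq (t + 1)
    rw [hd, inner_sub_right, real_inner_smul_right, real_inner_smul_right] at k2
    have k3 : ‖Z (t + 1 + 1)‖ ^ 2 = ρ ^ 2 * ‖Z (t + 1)‖ ^ 2
        - 2 * ρ * g * ⟪u (t + 1 + 1), Z (t + 1)⟫ + g ^ 2 * ‖u (t + 1 + 1)‖ ^ 2 := by
      rw [hZ (t + 1), norm_sub_sq_real, norm_smul, norm_smul, real_inner_smul_left,
        real_inner_smul_right, real_inner_comm, mul_pow, mul_pow, Real.norm_eq_abs,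
        Real.norm_eq_abs, sq_abs, sq_abs]
      ring
    rw [hΦ, hΦ, k3]
    have k4 : M * ‖u (t + 1 + 1)‖ ^ 2 = (1 - A * g ^ 2) * ‖u (t + 1 + 1)‖ ^ 2 := by rw [hM]
    linarith
  have hlow : ∀ t, A * ‖Z (t + 1)‖ ^ 2 ≤ Φ t := fun t => by
    have := EE_nonneg hb.le (by positivity) hE (X (t + 1)) (X t)
    have := hq0 (t + 1)
    rw [hΦ]; linarith
  have hup : ∀ t, Φ t ≤ Φ 0 * (ρ ^ t) ^ 2 := fun t => by
    induction t with
    | zero => simp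
    | succ n ih =>
      refine (hs n).trans ((mul_le_mul_of_nonneg_left ih (by positivity)).trans_eq ?_)
      ring
  have hΦ0 : 0 ≤ Φ 0 := le_trans (by positivity) (hlow 0)
  set D := √(Φ 0 / A) with hD
  have hD2 : D ^ 2 = Φ 0 / A := Real.sq_sqrt (by positivity)
  have hD0 : 0 ≤ D := Real.sqrt_nonneg _
  have hZb : ∀ t, ‖Z (t + 1)‖ ≤ D * ρ ^ t := fun t => by
    refine (pow_le_pow_iff_left₀ (norm_nonneg _) (by positivity) two_ne_zero).1 ?_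
    rw [mul_pow, hD2, div_mul_eq_mul_div, le_div_iff₀ hA, mul_comm]
    exact (hlow t).trans (hup t)
  refine ⟨‖y 1‖ + D / (ρ - b) + 1, by have := sub_pos.2 hbρ; positivity, fun t => ?_⟩
  have hpos := sub_pos.2 hbρ
  induction t with
  | zero =>
    have : 0 ≤ D / (ρ - b) := by positivity
    simp only [zero_add, pow_zero, mul_one]; linarith
  | succ n ih =>
    have e : y (n + 1 + 1) = Z (n + 1) + b • y (n + 1) := by rw [hZ0]; abel
    have k1 : ‖y (n + 1 + 1)‖ ≤ D * ρ ^ n + b * ((‖y 1‖ + D / (ρ - b) + 1) * ρ ^ n) := by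
      rw [e]
      refine (norm_add_le _ _).trans (add_le_add (hZb n) ?_)
      rw [norm_smul, Real.norm_of_nonneg hb.le]
      exact mul_le_mul_of_nonneg_left ih hb.le
    have k2 : D ≤ (ρ - b) * (‖y 1‖ + D / (ρ - b) + 1) := by
      have : (ρ - b) * (D / (ρ - b)) = D := by field_simp
      have : 0 ≤ (ρ - b) * (‖y 1‖ + 1) := by positivity
      nlinarith
    have k3 := mul_le_mul_of_nonneg_right k2 (pow_pos hρ n).le
    rw [pow_succ]
    nlinarith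

/-- Parameter `M`. -/
noncomputable def pM (δ τ : ℝ) : ℝ := 1 - τ * (8 * (1 - δ) * δ) / (2 * (δ - τ))

/-- Parameter `Γ`. -/
noncomputable def pG (δ τ : ℝ) : ℝ := ((1 - τ) ^ 2 - (1 - δ)) / (δ - τ)

/-- Parameter `c`. -/
noncomputable def pc (δ τ : ℝ) : ℝ :=
  ((1 - δ) ^ 2 + (1 - τ) ^ 2 + 2 * (1 - δ) * pM δ τ - 8 * (1 - δ) * δ * pG δ τ) / (4 * (1 - δ))

lemma params {δ : ℝ} (h0 : 0 < δ) (h1 : δ ≤ 1 / 8) : ∃ τ₀ : ℝ, 0 < τ₀ ∧ ∀ τ, 0 < τ → τ ≤ τ₀ →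
    τ < δ ∧ 0 ≤ pM δ τ * ((1 - δ) ^ 2 + (1 - τ) ^ 2) - 8 * (1 - δ) * δ * pG δ τ * (1 - δ)
      - 2 * (1 - δ) * pc δ τ ^ 2 ∧
    (1 - δ) * ((1 - δ) - 2 * pc δ τ) ^ 2 ≤ (1 - τ) ^ 2 * (2 * pM δ τ - (1 - δ)) := by
  have hb : 0 < 1 - δ := by linarith
  have cM : ContinuousAt (pM δ) 0 := by
    unfold pM
    fun_prop (disch := simpa using h0.ne')
  have cG : ContinuousAt (pG δ) 0 := by
    unfold pG
    fun_prop (disch := simpa using h0.ne')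
  have cc : ContinuousAt (pc δ) 0 := by
    unfold pc
    fun_prop
  have vM : pM δ 0 = 1 := by simp [pM]
  have vG : pG δ 0 = 1 := by simp [pG, h0.ne']
  have vc : pc δ 0 = (4 - 12 * δ + 9 * δ ^ 2) / (4 * (1 - δ)) := by
    rw [pc, vM, vG]; congr 1; ring
  have e1 : ∀ᶠ τ in 𝓝 (0 : ℝ), τ < δ := gt_mem_nhds h0
  have e2 : ∀ᶠ τ in 𝓝 (0 : ℝ), 0 < pM δ τ * ((1 - δ) ^ 2 + (1 - τ) ^ 2)
      - 8 * (1 - δ) * δ * pG δ τ * (1 - δ) - 2 * (1 - δ) * pc δ τ ^ 2 := by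
    refine ContinuousAt.eventually_lt continuousAt_const (by fun_prop) ?_
    rw [vM, vG, vc]
    have : 1 * ((1 - δ) ^ 2 + (1 - 0) ^ 2) - 8 * (1 - δ) * δ * 1 * (1 - δ)
        - 2 * (1 - δ) * ((4 - 12 * δ + 9 * δ ^ 2) / (4 * (1 - δ))) ^ 2
        = δ ^ 3 * (16 - 17 * δ) / (8 * (1 - δ)) := by field_simp; ring
    rw [this]
    have : 0 < 16 - 17 * δ := by linarith
    positivity
  have e3 : ∀ᶠ τ in 𝓝 (0 : ℝ), (1 - δ) * ((1 - δ) - 2 * pc δ τ) ^ 2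
      < (1 - τ) ^ 2 * (2 * pM δ τ - (1 - δ)) := by
    refine ContinuousAt.eventually_lt (by fun_prop) (by fun_prop) ?_
    rw [vM, vc]
    have : (1 - δ) * ((1 - δ) - 2 * ((4 - 12 * δ + 9 * δ ^ 2) / (4 * (1 - δ)))) ^ 2
        = (2 - 8 * δ + 7 * δ ^ 2) ^ 2 / (4 * (1 - δ)) := by field_simp; ring
    rw [this, div_lt_iff₀ (by positivity)]
    have k1 : 0 ≤ 2 - 8 * δ + 7 * δ ^ 2 := by nlinarith
    have k2 : 2 - 8 * δ + 7 * δ ^ 2 ≤ 2 - 7 * δ := by nlinarith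
    have k3 := pow_le_pow_left₀ k1 k2 2
    nlinarith
  obtain ⟨ε, hε, h⟩ := Metric.eventually_nhds_iff.1 (e1.and (e2.and e3))
  refine ⟨ε / 2, by positivity, fun τ a b => ?_⟩
  have := h (y := τ) (by rw [Real.dist_eq, sub_zero, abs_of_pos a]; linarith)
  exact ⟨this.1, this.2.1.le, this.2.2.le⟩

lemma limsup_root_le (u : ℕ → ℝ) (C ρ : ℝ) (hC : 0 < C) (hρ : 0 < ρ) (h0 : ∀ t, 0 ≤ u t)
    (h : ∀ t, u (t + 1) ≤ C * ρ ^ t) :
    limsup (fun t : ℕ => (((u t) ^ ((1 : ℝ) / t) : ℝ) : EReal)) atTop ≤ (ρ : EReal) := by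
  have h1 : Tendsto (fun t : ℕ => (C / ρ) ^ ((1 : ℝ) / t) * ρ) atTop (𝓝 ρ) := by
    have h0 : Tendsto (fun t : ℕ => (1 : ℝ) / t) atTop (𝓝 0) := tendsto_one_div_atTop_nhds_zero_nat
    have h2 : Tendsto (fun t : ℕ => (C / ρ) ^ ((1 : ℝ) / t)) atTop (𝓝 ((C / ρ) ^ (0 : ℝ))) :=
      (Real.continuousAt_const_rpow (by positivity)).tendsto.comp h0
    rw [Real.rpow_zero] at h2
    simpa using h2.mul_const ρ
  rw [← (EReal.tendsto_coe.2 h1).limsup_eq]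
  refine limsup_le_limsup ?_
  filter_upwards [eventually_gt_atTop 0] with t ht
  obtain ⟨n, rfl⟩ := Nat.exists_eq_succ_of_ne_zero ht.ne'
  refine EReal.coe_le_coe_iff.2 ?_
  have htpos : (0 : ℝ) < (n.succ : ℕ) := by exact_mod_cast ht
  have e : (C / ρ) ^ ((1 : ℝ) / (n.succ : ℕ)) * ρ = (C / ρ * ρ ^ n.succ) ^ ((1 : ℝ) / (n.succ : ℕ)) := by
    rw [Real.mul_rpow (by positivity) (by positivity), ← Real.rpow_natCast, ← Real.rpow_mul hρ.le]
    rw [mul_one_div_cancel htpos.ne', Real.rpow_one]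
  rw [e]
  refine Real.rpow_le_rpow (h0 _) ((h n).trans_eq ?_) (by positivity)
  rw [pow_succ]; field_simp

theorem upper {ε : ℝ} (h0 : 0 < ε) (h1 : ε ≤ 1) : ∃ κ₀ : ℝ, 0 < κ₀ ∧ ∀ (d : ℕ) (μ L : ℝ),
    0 < μ → μ < L → μ / L ≤ κ₀ → best d μ L ≤ ((1 - (8 - ε) * (μ / L) : ℝ) : EReal) := by
  obtain ⟨τ₀, hτ₀, hp⟩ := params (δ := ε / 8) (by positivity) (by linarith)
  refine ⟨τ₀ / 8, by positivity, fun d μ L hμ hL hκ => ?_⟩
  have hL0 : 0 < L := hμ.trans hL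
  have hκ0 : 0 < μ / L := by positivity
  set δ := ε / 8 with hδ
  have hδ0 : 0 < δ := by positivity
  have hb : 0 < 1 - δ := by linarith
  set τ := (8 - ε) * (μ / L) with hτ
  have hτ0 : 0 < τ := mul_pos (by linarith) hκ0
  obtain ⟨p1, p2, p3⟩ := hp τ hτ0 (by nlinarith)
  have hδτ : 0 < δ - τ := by linarith
  set g := 8 * (1 - δ) * δ with hg
  have hg0 : 0 < g := by positivity
  refine iInf₂_le_of_le (g / L) (by positivity) (iInf_le_of_le ((1 - τ) * (1 - δ)) ?_)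
  refine iSup₂_le fun f hf => iSup₂_le fun xs hxs => iSup₂_le fun x hx => ?_
  have ts := hf.twoSided
  have g0 : gradient f xs = 0 := by
    rw [gradient, IsLocalMin.fderiv_eq_zero (Eventually.of_forall hxs), map_zero]
  obtain ⟨H, hH⟩ : ∃ H : EuclideanSpace ℝ (Fin d) → ℝ, ∀ a,
    H a = L⁻¹ * (f a - f xs - μ / 2 * ‖a - xs‖ ^ 2) := ⟨_, fun _ => rfl⟩
  obtain ⟨U, hU⟩ : ∃ U : EuclideanSpace ℝ (Fin d) → EuclideanSpace ℝ (Fin d), ∀ a,
    U a = L⁻¹ • (gradient f a - μ • (a - xs)) := ⟨_, fun _ => rfl⟩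
  have key : ∀ a b, H b - H a - ⟪U a, b - a⟫ =
      L⁻¹ * (f b - f a - ⟪gradient f a, b - a⟫ - μ / 2 * ‖b - a‖ ^ 2) := fun a b => by
    have e : ‖b - xs‖ ^ 2 = ‖a - xs‖ ^ 2 + 2 * ⟪a - xs, b - a⟫ + ‖b - a‖ ^ 2 := by
      rw [← norm_add_sq_real]; congr 2; abel
    rw [hH, hH, hU, real_inner_smul_left, inner_sub_left, real_inner_smul_left, e]
    ring
  have co := coco (f := H) (g := U) one_pos
    (fun a b => by
      have := mul_nonneg (inv_pos.2 hL0).le (by linarith [(ts a b).1] :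
        0 ≤ f b - f a - ⟪gradient f a, b - a⟫ - μ / 2 * ‖b - a‖ ^ 2)
      linarith [key a b])
    (fun a b => by
      have k : 0 ≤ μ / 2 * ‖b - a‖ ^ 2 := by positivity
      have := mul_le_mul_of_nonneg_left (by linarith [(ts a b).2] :
        f b - f a - ⟪gradient f a, b - a⟫ - μ / 2 * ‖b - a‖ ^ 2 ≤ L * (1 / 2 * ‖b - a‖ ^ 2))
        (inv_pos.2 hL0).le
      rw [inv_mul_cancel_left₀ hL0.ne'] at this
      linarith [key a b])
  have H0 : H xs = 0 := by simp [hH]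
  have U0 : U xs = 0 := by simp [hU, g0]
  obtain ⟨C, hC, hb⟩ := lyap (ρ := 1 - τ) (b := 1 - δ) (g := g) (A := τ / (2 * g * (δ - τ)))
    (M := pM δ τ) (Γ := pG δ τ) (c := pc δ τ) hb (by linarith) hg0 (by positivity)
    (by rw [pG]; field_simp; ring) (by rw [pG]; field_simp; ring)
    (by rw [pM, ← hg]; field_simp) (by rw [pc, ← hg]; field_simp) p2 p3
    (fun t => x t - xs) (fun t => U (x t)) (fun t => H (x t) - ‖U (x t)‖ ^ 2 / 2)
    (fun t => by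
      have e : τ * δ = g / L * μ := by rw [hτ, hg, hδ]; field_simp
      rw [hx t, hU]
      match_scalars
      · field_simp at e ⊢; linarith
      · ring
      · field_simp
      · field_simp at e ⊢; linarith)
    (fun t => by
      have := co xs (x t)
      rw [H0, U0, inner_zero_left, sub_zero] at this
      linarith)
    (fun t => by
      have k1 := co (x (t + 1)) (x t)
      have k2 := co (x (t + 1)) xs
      rw [H0, U0, zero_sub, norm_neg] at k2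
      rw [norm_sub_sq_real, real_inner_comm (U (x (t + 1))) (U (x t))] at k1
      have r0 : 0 ≤ (1 - τ) ^ 2 := sq_nonneg _
      have r1 : 0 ≤ 1 - (1 - τ) ^ 2 := by nlinarith
      have k3 := mul_le_mul_of_nonneg_left k1 r0
      have k4 := mul_le_mul_of_nonneg_left k2 r1
      have e : ⟪U (x (t + 1)), x (t + 1) - xs - (1 - τ) ^ 2 • (x t - xs)⟫ =
          -((1 - τ) ^ 2 * ⟪U (x (t + 1)), x t - x (t + 1)⟫)
            - (1 - (1 - τ) ^ 2) * ⟪U (x (t + 1)), xs - x (t + 1)⟫ := by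
        simp only [inner_sub_right, real_inner_smul_right]; ring
      rw [e]
      linarith)
  exact limsup_root_le (fun t => ‖x t - xs‖) C (1 - τ) hC (by linarith) (fun _ => norm_nonneg _) hb

end Pool.Agent.Work.MP_a6d20f_an.Hedge
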