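import Pool.Agent.Work.MP_a6d20f_an.Hedge.Lower
import Pool.Agent.Work.MP_a6d20f_an.Hedge.Lyap

/-! Lower bounds for the best worst-case rate in every dimension. -/

open scoped RealInnerProductSpace

namespace Pool.Agent.Work.MP_a6d20f_an.Hedge

lemma Slow.le_worst {d : ℕ} (i : Fin d) {μ L γ β ρ : ℝ} (hμ : 0 < μ) (hL : μ < L)
    (h : Slow μ L γ β ρ) : (ρ : EReal) ≤ worst d μ L γ β := by
  refine ((Slow.slowV h).transfer
    (LinearMap.toSpanSingleton ℝ _ (EuclideanSpace.single i (1 : ℝ)))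
    (EuclideanSpace.proj (𝕜 := ℝ) i).toLinearMap (fun v x => ?_) (fun v => ?_) hL.le).le_worst
      hμ.le (hμ.trans hL)
  · simp [real_inner_smul_left, EuclideanSpace.inner_single_left, mul_comm]
  · simp

lemma SlowV.le_worst2 {d : ℕ} {i j : Fin d} (hij : i ≠ j) {μ L γ β ρ : ℝ} (hμ : 0 < μ)
    (hL : μ < L) (h : SlowV ℂ μ L γ β ρ) : (ρ : EReal) ≤ worst d μ L γ β := by
  refine (h.transfer
    (Complex.reLm.smulRight (EuclideanSpace.single i (1 : ℝ)) +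
      Complex.imLm.smulRight (EuclideanSpace.single j (1 : ℝ)))
    ((EuclideanSpace.proj (𝕜 := ℝ) i).toLinearMap.smulRight (1 : ℂ) +
      (EuclideanSpace.proj (𝕜 := ℝ) j).toLinearMap.smulRight Complex.I)
    (fun v x => ?_) (fun v => ?_) hL.le).le_worst hμ.le (hμ.trans hL)
  · simp [inner_add_left, real_inner_smul_left, EuclideanSpace.inner_single_left, Complex.inner,
      mul_comm]
  · apply Complex.ext <;> simp [hij, hij.symm]

theorem best_ge_16 {d : ℕ} (hd : 1 ≤ d) {μ L : ℝ} (hμ : 0 < μ) (hL : μ < L) :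
    ((1 - 16 * (μ / L) : ℝ) : EReal) ≤ best d μ L :=
  le_iInf₂ fun _ hγ => le_iInf fun _ => Slow.le_worst ⟨0, hd⟩ hμ hL (lower1 hμ hL hγ)

theorem best_ge_8 {d : ℕ} (hd : 2 ≤ d) {μ L : ℝ} (hμ : 0 < μ) (hL : μ < L)
    (hk : μ / L ≤ 1 / 1000) : ((1 - 8 * (μ / L) : ℝ) : EReal) ≤ best d μ L :=
  le_iInf₂ fun _ hγ => le_iInf fun _ => (lower2 hμ hL hγ hk).elim
    (Slow.le_worst ⟨0, by omega⟩ hμ hL)
    (SlowV.le_worst2 (i := ⟨0, by omega⟩) (j := ⟨1, hd⟩) (by simp) hμ hL)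

end Pool.Agent.Work.MP_a6d20f_an.Hedge
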