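import Pool.Agent.Work.MP_a6d20f_an.Hedge.Defs
import Pool.Agent.Work.MP_a6d20f_an.Basic
import Mathlib.Analysis.Calculus.Deriv.MeanValue
import Mathlib.Analysis.InnerProductSpace.Calculus

/-! Two-sided quadratic bounds characterise the class; transfer of slow trajectories. -/

open Filter Topology
open scoped RealInnerProductSpace

namespace Pool.Agent.Work.MP_a6d20f_an.Hedge

variable {V : Type*} [NormedAddCommGroup V] [InnerProductSpace ℝ V]

/-- Two-sided quadratic bounds for `f` with gradient field `g`. -/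
def TwoSided (μ L : ℝ) (f : V → ℝ) (g : V → V) : Prop :=
  ∀ x y, f x + ⟪g x, y - x⟫ + μ / 2 * ‖y - x‖ ^ 2 ≤ f y ∧
    f y ≤ f x + ⟪g x, y - x⟫ + L / 2 * ‖y - x‖ ^ 2

lemma mono_of_deriv (ψ ψ' : ℝ → ℝ) (h : ∀ s, HasDerivAt ψ (ψ' s) s)
    (h0 : ∀ s, 0 < s → s < 1 → 0 ≤ ψ' s) : ψ 0 ≤ ψ 1 := by
  obtain ⟨c, hc, e⟩ := exists_hasDerivAt_eq_slope ψ ψ' zero_lt_one
    (fun s _ => (h s).continuousAt.continuousWithinAt) (fun s _ => h s)
  have := h0 c hc.1 hc.2
  rw [e] at this
  simpa using this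

/-- Co-coercivity: the interpolation inequality. -/
lemma coco {L : ℝ} (hL : 0 < L) {f : V → ℝ} {g : V → V}
    (h1 : ∀ x y, f x + ⟪g x, y - x⟫ ≤ f y)
    (h2 : ∀ x y, f y ≤ f x + ⟪g x, y - x⟫ + L / 2 * ‖y - x‖ ^ 2) (x y : V) :
    f x + ⟪g x, y - x⟫ + ‖g y - g x‖ ^ 2 / (2 * L) ≤ f y := by
  set w := g y - g x with hw
  have a := h1 x (y - (1 / L) • w)
  have b := h2 y (y - (1 / L) • w)
  have e1 : y - (1 / L) • w - x = (y - x) - (1 / L) • w := by abel
  have e2 : y - (1 / L) • w - y = -((1 / L) • w) := by abel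
  rw [e1, inner_sub_right, real_inner_smul_right] at a
  rw [e2, inner_neg_right, real_inner_smul_right, norm_neg, norm_smul, mul_pow,
    Real.norm_eq_abs, sq_abs] at b
  have e3 : ⟪g y, w⟫ - ⟪g x, w⟫ = ‖w‖ ^ 2 := by
    rw [← inner_sub_left, ← hw, real_inner_self_eq_norm_sq]
  have e4 : ‖w‖ ^ 2 / (2 * L) = 1 / L * ‖w‖ ^ 2 - L / 2 * ((1 / L) ^ 2 * ‖w‖ ^ 2) := by
    field_simp; ring
  rw [e4, ← e3]
  rw [← e3] at b
  linarith

lemma TwoSided.hasGradientAt [CompleteSpace V] {μ L : ℝ} (hμ : 0 ≤ μ) {f : V → ℝ} {g : V → V}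
    (h : TwoSided μ L f g) (x : V) : HasGradientAt f (g x) x := by
  rw [hasGradientAt_iff_isLittleO]
  have h1 : (fun y => f y - f x - ⟪g x, y - x⟫) =O[𝓝 x] fun y => ‖y - x‖ ^ 2 := by
    refine Asymptotics.IsBigO.of_bound (|L| / 2) (Eventually.of_forall fun y => ?_)
    obtain ⟨a, b⟩ := h x y
    have c : 0 ≤ μ / 2 * ‖y - x‖ ^ 2 := by positivity
    have d : L / 2 * ‖y - x‖ ^ 2 ≤ |L| / 2 * ‖y - x‖ ^ 2 := by
      gcongr; exact le_abs_self _
    rw [Real.norm_of_nonneg (by linarith), Real.norm_of_nonneg (by positivity)]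
    linarith
  exact h1.trans_isLittleO (Asymptotics.isLittleO_pow_sub_sub x one_lt_two)

lemma TwoSided.inF {d : ℕ} {μ L : ℝ} (hμ : 0 ≤ μ) (hL : 0 < L)
    {f : EuclideanSpace ℝ (Fin d) → ℝ} {g : EuclideanSpace ℝ (Fin d) → EuclideanSpace ℝ (Fin d)}
    (h : TwoSided μ L f g) : InF μ L f ∧ gradient f = g := by
  have hg : gradient f = g := gradient_eq fun x => h.hasGradientAt hμ x
  refine ⟨⟨fun x => (h.hasGradientAt hμ x).differentiableAt, ⟨convex_univ, ?_⟩, ?_⟩, hg⟩
  · intro x _ y _ a b ha hb hab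
    set z := a • x + b • y with hz
    have h1 := (h z x).1
    have h2 := (h z y).1
    have e1 : x - z = b • (x - y) := by
      rw [hz, show a = 1 - b by linarith]; module
    have e2 : y - z = -(a • (x - y)) := by
      rw [hz, show b = 1 - a by linarith]; module
    rw [e1, real_inner_smul_right, norm_smul, mul_pow, Real.norm_eq_abs, sq_abs] at h1
    rw [e2, inner_neg_right, real_inner_smul_right, norm_neg, norm_smul, mul_pow,
      Real.norm_eq_abs, sq_abs] at h2
    have h3 := mul_le_mul_of_nonneg_left h1 ha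
    have h4 := mul_le_mul_of_nonneg_left h2 hb
    simp only [smul_eq_mul]
    have e3 : f z = a * f z + b * f z := by rw [← add_mul, hab, one_mul]
    have e4 : a * (μ / 2 * (b ^ 2 * ‖x - y‖ ^ 2)) + b * (μ / 2 * (a ^ 2 * ‖x - y‖ ^ 2))
        = a * b * (μ / 2 * ‖x - y‖ ^ 2) * (a + b) := by ring
    rw [hab, mul_one] at e4
    nlinarith
  · intro x y
    rw [hg]
    have k1 : ∀ x y, f x + ⟪g x, y - x⟫ ≤ f y := fun x y => by
      have := (h x y).1
      have c : 0 ≤ μ / 2 * ‖y - x‖ ^ 2 := by positivity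
      linarith
    have a := coco hL k1 (fun x y => (h x y).2) x y
    have b := coco hL k1 (fun x y => (h x y).2) y x
    have e1 : ⟪g x, y - x⟫ + ⟪g y, x - y⟫ = -⟪g x - g y, x - y⟫ := by
      rw [inner_sub_left, ← neg_sub x y, inner_neg_right]; ring
    rw [norm_sub_rev (g y)] at a
    have c := real_inner_le_norm (g x - g y) (x - y)
    have e2 : ‖g x - g y‖ ^ 2 / (2 * L) + ‖g x - g y‖ ^ 2 / (2 * L) = ‖g x - g y‖ ^ 2 / L := by
      field_simp; ring
    have d1 : ‖g x - g y‖ ^ 2 / L ≤ ‖g x - g y‖ * ‖x - y‖ := by linarith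
    rw [div_le_iff₀ hL] at d1
    rcases (norm_nonneg (g x - g y)).eq_or_lt with h0 | h0
    · rw [← h0]; positivity
    · refine le_of_mul_le_mul_left ?_ h0
      nlinarith

lemma line_hasDerivAt [CompleteSpace V] {f : V → ℝ} (hf : Differentiable ℝ f) (x v : V) (s : ℝ) :
    HasDerivAt (fun s : ℝ => f (x + s • v)) ⟪gradient f (x + s • v), v⟫ s := by
  have h1 : HasDerivAt (fun s : ℝ => x + s • v) v s := by
    simpa using ((hasDerivAt_id s).smul_const v).const_add x
  have h2 := (hf (x + s • v)).hasFDerivAt.comp_hasDerivAt s h1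
  rw [inner_gradient_left]
  exact h2

lemma InF.twoSided {d : ℕ} {μ L : ℝ} {f : EuclideanSpace ℝ (Fin d) → ℝ} (h : InF μ L f) :
    TwoSided μ L f (gradient f) := by
  obtain ⟨hd, hc, hl⟩ := h
  intro x y
  set v := y - x with hv
  have hy : y = x + v := by rw [hv]; abel
  constructor
  · have h1 := line_hasDerivAt hd x v 0
    rw [zero_smul, add_zero, hasDerivAt_iff_tendsto_slope_zero] at h1
    have h2 := h1.mono_left (nhdsWithin_mono _ (fun s hs => ne_of_gt hs) : 𝓝[>] (0 : ℝ) ≤ 𝓝[≠] 0)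
    have h3 : Tendsto (fun s : ℝ => f y - f x - (1 - s) * (μ / 2 * ‖v‖ ^ 2)) (𝓝[>] 0)
        (𝓝 (f y - f x - (1 - 0) * (μ / 2 * ‖v‖ ^ 2))) := by
      refine Tendsto.mono_left ?_ nhdsWithin_le_nhds
      exact Continuous.tendsto (by fun_prop) 0
    have h4 := le_of_tendsto_of_tendsto h2 h3 (by
      filter_upwards [Ioo_mem_nhdsGT (zero_lt_one' ℝ)] with s hs
      have k := hc.2 (Set.mem_univ x) (Set.mem_univ y) (by linarith [hs.2] : 0 ≤ 1 - s) hs.1.le
        (by ring)
      have e : (1 - s) • x + s • y = x + s • v := by rw [hv]; module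
      rw [e, norm_sub_rev, ← hv] at k
      simp only [smul_eq_mul, zero_add, zero_smul, add_zero] at k ⊢
      rw [inv_mul_le_iff₀ hs.1]
      linarith)
    linarith
  · have h1 := mono_of_deriv
      (fun s => s * ⟪gradient f x, v⟫ + L / 2 * ‖v‖ ^ 2 * s ^ 2 - f (x + s • v))
      (fun s => ⟪gradient f x, v⟫ + L * ‖v‖ ^ 2 * s - ⟪gradient f (x + s • v), v⟫)
      (fun s => by
        have a := ((hasDerivAt_id s).mul_const ⟪gradient f x, v⟫).add
          ((hasDerivAt_pow 2 s).const_mul (L / 2 * ‖v‖ ^ 2))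
        refine (a.sub (line_hasDerivAt hd x v s)).congr_deriv ?_
        norm_num; ring)
      (fun s hs _ => by
        have a := hl (x + s • v) x
        rw [add_sub_cancel_left, norm_smul, Real.norm_eq_abs, abs_of_pos hs] at a
        have b := real_inner_le_norm (gradient f (x + s • v) - gradient f x) v
        rw [inner_sub_left] at b
        have c := mul_le_mul_of_nonneg_right a (norm_nonneg v)
        nlinarith)
    simp only [zero_smul, add_zero, one_smul, ← hy] at h1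
    linarith

/-- A slow trajectory in the space `V`. -/
def SlowV (V : Type*) [NormedAddCommGroup V] [InnerProductSpace ℝ V] (μ L γ β ρ : ℝ) : Prop :=
  ∃ (f : V → ℝ) (g : V → V) (xs : V) (x : ℕ → V), TwoSided μ L f g ∧ g xs = 0 ∧
    (∀ t, x (t + 2) = (1 + β) • x (t + 1) - β • x t - γ • g (x (t + 1))) ∧
    (ρ : EReal) ≤ limsup (fun t : ℕ => ((‖x t - xs‖ ^ ((1 : ℝ) / t) : ℝ) : EReal)) atTop

lemma SlowV.le_worst {d : ℕ} {μ L γ β ρ : ℝ} (hμ : 0 ≤ μ) (hL : 0 < L)
    (h : SlowV (EuclideanSpace ℝ (Fin d)) μ L γ β ρ) : (ρ : EReal) ≤ worst d μ L γ β := by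
  obtain ⟨f, g, xs, x, h1, h2, h3, h4⟩ := h
  obtain ⟨k1, k2⟩ := h1.inF hμ hL
  have k3 : ∀ y, f xs ≤ f y := fun y => by
    have := (h1 xs y).1
    rw [h2, inner_zero_left] at this
    have c : 0 ≤ μ / 2 * ‖y - xs‖ ^ 2 := by positivity
    linarith
  have k4 : IsHB γ β f x := fun t => by rw [k2]; exact h3 t
  exact le_iSup₂_of_le f k1 (le_iSup₂_of_le xs k3 (le_iSup₂_of_le x k4 h4))

lemma SlowV.transfer {W : Type*} [NormedAddCommGroup W] [InnerProductSpace ℝ W]
    (ι : V →ₗ[ℝ] W) (P : W →ₗ[ℝ] V) (hadj : ∀ v x, ⟪ι v, x⟫ = ⟪v, P x⟫) (hP : ∀ v, P (ι v) = v)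
    {μ L γ β ρ : ℝ} (hL : μ ≤ L) (h : SlowV V μ L γ β ρ) : SlowV W μ L γ β ρ := by
  obtain ⟨f, g, xs, x, h1, h2, h3, h4⟩ := h
  have n1 : ∀ v, ‖ι v‖ = ‖v‖ := fun v => by
    have : ‖ι v‖ ^ 2 = ‖v‖ ^ 2 := by
      rw [← real_inner_self_eq_norm_sq, hadj, hP, real_inner_self_eq_norm_sq]
    exact (pow_left_inj₀ (norm_nonneg _) (norm_nonneg _) two_ne_zero).1 this
  have n2 : ∀ w, ‖P w‖ ^ 2 ≤ ‖w‖ ^ 2 := fun w => by
    have a : ‖P w‖ ^ 2 ≤ ‖P w‖ * ‖w‖ := by
      rw [← real_inner_self_eq_norm_sq, ← hadj, ← n1 (P w)]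
      exact real_inner_le_norm _ _
    nlinarith [sq_nonneg (‖P w‖ - ‖w‖)]
  refine ⟨fun w => f (P w) - μ / 2 * ‖P w‖ ^ 2 + μ / 2 * ‖w‖ ^ 2,
    fun w => ι (g (P w) - μ • P w) + μ • w, ι xs, fun t => ι (x t), ?_, ?_, ?_, ?_⟩
  · intro a b
    obtain ⟨k1, k2⟩ := h1 (P a) (P b)
    have e1 : ⟪ι (g (P a) - μ • P a) + μ • a, b - a⟫ =
        ⟪g (P a), P b - P a⟫ - μ * ⟪P a, P b - P a⟫ + μ * ⟪a, b - a⟫ := by
      rw [inner_add_left, hadj, map_sub, inner_sub_left, real_inner_smul_left,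
        real_inner_smul_left]
    have e2 : ‖P b‖ ^ 2 = ‖P a‖ ^ 2 + 2 * ⟪P a, P b - P a⟫ + ‖P b - P a‖ ^ 2 := by
      rw [← norm_add_sq_real, add_sub_cancel]
    have e3 : ‖b‖ ^ 2 = ‖a‖ ^ 2 + 2 * ⟪a, b - a⟫ + ‖b - a‖ ^ 2 := by
      rw [← norm_add_sq_real, add_sub_cancel]
    have e4 := n2 (b - a)
    rw [map_sub] at e4
    have e5 := mul_le_mul_of_nonneg_left e4 (by linarith : 0 ≤ (L - μ) / 2)
    simp only [e1, e2, e3]
    constructor <;> nlinarith
  · simp only [hP, h2, map_sub, map_zero, map_smul]; abel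
  · intro t
    simp only [hP, h3, map_sub, map_smul]
    module
  · simpa only [← map_sub, n1] using h4

lemma Slow.slowV {μ L γ β ρ : ℝ} (h : Slow μ L γ β ρ) : SlowV ℝ μ L γ β ρ := by
  obtain ⟨f, xs, x, h1, h2, h3, h4, h5⟩ := h
  refine ⟨f, deriv f, xs, x, ?_, ?_, ?_, ?_⟩
  · intro a b
    set v := b - a with hv
    have hb : b = a + v := by rw [hv]; ring
    have hl : ∀ s : ℝ, HasDerivAt (fun s : ℝ => f (a + s * v)) (deriv f (a + s * v) * v) s :=
      fun s => by
        have k : HasDerivAt (fun s : ℝ => a + s * v) v s := by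
          simpa using ((hasDerivAt_id s).mul_const v).const_add a
        exact (h1 (a + s * v)).hasDerivAt.comp s k
    have hs : ∀ s : ℝ, 0 < s → μ * v ^ 2 * s ≤ (deriv f (a + s * v) - deriv f a) * v ∧
        (deriv f (a + s * v) - deriv f a) * v ≤ L * v ^ 2 * s := fun s hs => by
      by_cases h0 : v = 0
      · simp [h0]
      have hne : s * v ≠ 0 := mul_ne_zero hs.ne' h0
      obtain ⟨k1, k2⟩ := h2 (a + s * v) a (by simpa using ⟨hs.ne', h0⟩)
      rw [add_sub_cancel_left] at k1 k2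
      have e : (deriv f (a + s * v) - deriv f a) * v =
          (deriv f (a + s * v) - deriv f a) / (s * v) * (v ^ 2 * s) := by field_simp
      have p : 0 ≤ v ^ 2 * s := by positivity
      rw [e, mul_assoc, mul_assoc]
      exact ⟨mul_le_mul_of_nonneg_right k1 p, mul_le_mul_of_nonneg_right k2 p⟩
    have e1 : ⟪deriv f a, v⟫ = deriv f a * v := by simp [mul_comm]
    rw [e1, Real.norm_eq_abs, sq_abs]
    constructor
    · have k := mono_of_deriv
        (fun s => f (a + s * v) - (s * (deriv f a * v) + μ / 2 * v ^ 2 * s ^ 2))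
        (fun s => deriv f (a + s * v) * v - (deriv f a * v + μ * v ^ 2 * s))
        (fun s => by
          have a := ((hasDerivAt_id s).mul_const (deriv f a * v)).add
            ((hasDerivAt_pow 2 s).const_mul (μ / 2 * v ^ 2))
          refine ((hl s).sub a).congr_deriv ?_
          norm_num; ring)
        (fun s h0 _ => by have := (hs s h0).1; linarith)
      simp only [zero_mul, add_zero, one_mul, ← hb] at k
      linarith
    · have k := mono_of_deriv
        (fun s => (s * (deriv f a * v) + L / 2 * v ^ 2 * s ^ 2) - f (a + s * v))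
        (fun s => (deriv f a * v + L * v ^ 2 * s) - deriv f (a + s * v) * v)
        (fun s => by
          have a := ((hasDerivAt_id s).mul_const (deriv f a * v)).add
            ((hasDerivAt_pow 2 s).const_mul (L / 2 * v ^ 2))
          refine (a.sub (hl s)).congr_deriv ?_
          norm_num; ring)
        (fun s h0 _ => by have := (hs s h0).2; linarith)
      simp only [zero_mul, add_zero, one_mul, ← hb] at k
      linarith
  · exact IsLocalMin.deriv_eq_zero (Eventually.of_forall h3)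
  · intro t; simpa only [smul_eq_mul] using h4 t
  · simpa only [Real.norm_eq_abs] using h5

end Pool.Agent.Work.MP_a6d20f_an.Hedge
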